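import Pool.Agent.H28.GN.AllG0
import Pool.Agent.H44.GN.GF1
import Pool.Agent.H44.GN.GF2

/-!
Theorem G, closed.
-/

set_option autoImplicit false

namespace Pool.Agent.H28.GN.AllG

open Pool.Agent.H28.GN

theorem a_GF1 : T_GF1 := Pool.Agent.H44.GNG.pf_GF1 a_GVN
theorem a_GF2 : T_GF2 := Pool.Agent.H44.GNG.pf_GF2 a_GF1 a_BRG

/-- Theorem G -/
theorem thmG (u : Bool × Bool → ℂ) (hu : Pool.Agent.H28.LF.Um u) : ThmG u :=
  a_GF2 u hu fun c J hc hJ => coreG u c J hu hc hJ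

end Pool.Agent.H28.GN.AllG
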