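import Pool.Agent.H28.GN.T4
import Pool.Agent.H28.LF.Brg

/-!
Theorem G: the final form in terms of `λ` and `μ`.
-/

set_option autoImplicit false

open Filter Topology Finset

namespace Pool.Agent.H28.GN

open Pool.Agent.H28.LF (lt Um ul2 ul2_lt)

theorem fz_ul2 (u : ℤ → ℤ → ℂ) (n : ℕ) : fz (ul2 u) (n : ℤ) =
    ∏ i ∈ Icc 1 n, u ((-1) ^ ArithmeticFunction.cardFactors i)
      (ArithmeticFunction.moebius i ^ 2) := by
  unfold fz
  have h : Icc 1 n = Ico 1 (n + 1) := by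
    ext i
    simp only [Finset.mem_Icc, Finset.mem_Ico]
    omega
  rw [h, Finset.prod_Ico_eq_prod_range, Int.toNat_natCast]
  apply Finset.prod_congr (by simp)
  intro i _
  rw [ul2_lt, add_comm]

theorem sum_tail {R : ℕ} (v : Fin R → ℕ) (K : ℕ) (G : (Fin R → ℕ) → ℝ) :
    ∑ t ∈ Tb (Fin.cons 0 v : Fin (R + 1) → ℕ) K, G (fun r => t r.succ) =
      K * ∑ t ∈ Tb v K, G t := by
  have h1 : ∑ t ∈ Tb (Fin.cons 0 v : Fin (R + 1) → ℕ) K, G (fun r => t r.succ) =
      ∑ p ∈ Ioc 0 K ×ˢ Tb v K, G p.2 := by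
    refine Finset.sum_nbij' (fun t => (t 0, fun r => t r.succ))
      (fun p => (Fin.cons p.1 p.2 : Fin (R + 1) → ℕ)) ?_ ?_ ?_ ?_ ?_
    · intro t ht
      unfold Tb at ht ⊢
      rw [Fintype.mem_piFinset] at ht
      rw [mem_product, Fintype.mem_piFinset]
      refine ⟨?_, fun r => ?_⟩
      · have := ht 0
        simpa using this
      · have := ht r.succ
        simpa using this
    · rintro ⟨p, t⟩ hp
      unfold Tb at hp ⊢
      rw [mem_product, Fintype.mem_piFinset] at hp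
      rw [Fintype.mem_piFinset]
      intro r
      refine Fin.cases ?_ (fun r => ?_) r
      · simpa using hp.1
      · simpa using hp.2 r
    · intro t _
      funext r
      refine Fin.cases ?_ (fun r => ?_) r
      · simp
      · simp
    · rintro ⟨p, t⟩ _
      simp
    · intro t _
      rfl
  rw [h1, Finset.sum_product]
  simp

theorem handG (u : ℤ → ℤ → ℂ) (hT : ThmG (ul2 u)) (J R : ℕ) (b : Fin R → ℕ)
    (a : Fin J → Fin R → ℕ) (hab : ∀ j, a j ≠ b) (ε : ℝ) (hε : 0 < ε) :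
    ∃ K₀ : ℕ, 0 < K₀ ∧ ∀ (x y : ℕ) (K : ℕ → ℕ) (v : ℕ → Fin R → ℕ) (g : ℕ → Fin J → ℕ → ℂ)
      (I : ℕ → (Fin R → ℕ) → Finset (ℕ × ℕ)),
      K₀ ≤ x → K₀ * x ≤ y → (∀ N, K₀ ≤ N → K₀ ≤ K N ∧ K N ≤ N) → (∀ N r, v N r ≤ N) →
      (∀ N j n, ‖g N j n‖ ≤ 1) → (∀ N t, ∀ S ∈ I N t, S.1 + K₀ ≤ S.2 ∧ S.2 ≤ N) →
      (∀ N t, (I N t : Set (ℕ × ℕ)).PairwiseDisjoint (fun S => Ioc S.1 S.2)) →
      ∑ N ∈ Icc x y, (∑ t ∈ Fintype.piFinset (fun r => Ioc (v N r) (v N r + K N)),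
        ∑ S ∈ I N t, ‖∑ n ∈ Ioc S.1 S.2,
          (∏ i ∈ Icc 1 (n + ∑ r, b r * t r), u ((-1) ^ ArithmeticFunction.cardFactors i)
            (ArithmeticFunction.moebius i ^ 2)) *
          ∏ j, g N j (n + ∑ r, a j r * t r)‖) / ((K N : ℝ) ^ R * (N : ℝ) ^ 2) ≤
        ε * Real.log ((y : ℝ) / x) := by
  classical
  obtain ⟨K₀, hK₀, h⟩ := hT (J + 1) (R + 1)
    (Fin.cons (Fin.cons 0 b : Fin (R + 1) → ℕ)
      (Fin.snoc (α := fun _ => Fin (R + 1) → ℕ) (fun j => (Fin.cons 0 (a j) : Fin (R + 1) → ℕ))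
        (Fin.cons 1 b : Fin (R + 1) → ℕ)))
    (Nat.succ_pos J) (by
      intro j
      rw [Fin.cons_succ, Fin.cons_zero]
      refine Fin.lastCases ?_ (fun j => ?_) j
      · rw [Fin.snoc_last]
        intro he
        have := congrFun he 0
        simp at this
      · rw [Fin.snoc_castSucc]
        intro he
        apply hab j
        funext r
        have := congrFun he r.succ
        simpa using this) ε hε
  refine ⟨K₀, hK₀, fun x y K v g I a1 a2 a3 a4 a5 a6 a7 => ?_⟩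
  have h1 := h x y K (fun N => (Fin.cons 0 (v N) : Fin (R + 1) → ℕ))
    (fun N => Fin.snoc (α := fun _ => ℤ → ℂ) (fun j n => g N j n.toNat) (fun _ => 1))
    (fun N t => I N (fun r => t r.succ)) a1 a2 a3 (by
      intro N r
      refine Fin.cases ?_ (fun r => ?_) r
      · simp
      · simpa using a4 N r) (by
      intro N j n
      refine Fin.lastCases ?_ (fun j => ?_) j
      · simp
      · simpa using a5 N j _) (fun N t => a6 N _) (fun N t => a7 N _)
  refine le_trans (le_of_eq ?_) h1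
  apply Finset.sum_congr rfl
  intro N hN
  have hKN : (0 : ℝ) < K N := by
    have h2 := (a3 N (a1.trans (mem_Icc.1 hN).1)).1
    exact_mod_cast lt_of_lt_of_le hK₀ h2
  set G : (Fin R → ℕ) → ℝ := fun t => ∑ S ∈ I N t, ‖∑ n ∈ Ioc S.1 S.2,
          (∏ i ∈ Icc 1 (n + ∑ r, b r * t r), u ((-1) ^ ArithmeticFunction.cardFactors i)
            (ArithmeticFunction.moebius i ^ 2)) *
          ∏ j, g N j (n + ∑ r, a j r * t r)‖ with hG
  have h2 := sum_tail (v N) (K N) G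
  have h3 : ∀ t : Fin (R + 1) → ℕ, G (fun r => t r.succ) =
      ∑ S ∈ I N (fun r => t r.succ), ‖∑ n ∈ Ioc (S.1 : ℤ) S.2,
        fz (ul2 u) (n + lf ((Fin.cons (Fin.cons 0 b : Fin (R + 1) → ℕ)
          (Fin.snoc (α := fun _ => Fin (R + 1) → ℕ)
            (fun j => (Fin.cons 0 (a j) : Fin (R + 1) → ℕ))
            (Fin.cons 1 b : Fin (R + 1) → ℕ)) : Fin (J + 2) → Fin (R + 1) → ℕ) 0) t) *
        ∏ j, (Fin.snoc (α := fun _ => ℤ → ℂ) (fun j n => g N j n.toNat) (fun _ => 1) :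
          Fin (J + 1) → ℤ → ℂ) j (n + lf ((Fin.cons (Fin.cons 0 b : Fin (R + 1) → ℕ)
          (Fin.snoc (α := fun _ => Fin (R + 1) → ℕ)
            (fun j => (Fin.cons 0 (a j) : Fin (R + 1) → ℕ))
            (Fin.cons 1 b : Fin (R + 1) → ℕ)) : Fin (J + 2) → Fin (R + 1) → ℕ) j.succ) t)‖ := by
    intro t
    rw [hG]
    apply Finset.sum_congr rfl
    intro S _
    congr 1
    symm
    refine Finset.sum_nbij' (fun n : ℤ => n.toNat) (fun n : ℕ => (n : ℤ)) ?_ ?_ ?_ ?_ ?_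
    · intro n hn
      rw [mem_Ioc] at hn ⊢
      omega
    · intro n hn
      rw [mem_Ioc] at hn ⊢
      omega
    · intro n hn
      rw [mem_Ioc] at hn
      omega
    · intro n _
      exact Int.toNat_natCast n
    · intro n hn
      rw [mem_Ioc] at hn
      obtain ⟨m, rfl⟩ : ∃ m : ℕ, n = m := ⟨n.toNat, by omega⟩
      rw [Int.toNat_natCast, Fin.prod_univ_castSucc]
      have e0 : lf ((Fin.cons (Fin.cons 0 b : Fin (R + 1) → ℕ)
          (Fin.snoc (α := fun _ => Fin (R + 1) → ℕ)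
            (fun j => (Fin.cons 0 (a j) : Fin (R + 1) → ℕ))
            (Fin.cons 1 b : Fin (R + 1) → ℕ)) : Fin (J + 2) → Fin (R + 1) → ℕ) 0) t =
          ∑ r, b r * t r.succ := by
        unfold lf
        rw [Fin.sum_univ_succ]
        simp
      rw [e0, ← Nat.cast_add, fz_ul2]
      congr 1
      rw [Fin.snoc_last, mul_one]
      apply Finset.prod_congr rfl
      intro j _
      have e1 : lf ((Fin.cons (Fin.cons 0 b : Fin (R + 1) → ℕ)
          (Fin.snoc (α := fun _ => Fin (R + 1) → ℕ)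
            (fun j => (Fin.cons 0 (a j) : Fin (R + 1) → ℕ))
            (Fin.cons 1 b : Fin (R + 1) → ℕ)) : Fin (J + 2) → Fin (R + 1) → ℕ)
              j.castSucc.succ) t = ∑ r, a j r * t r.succ := by
        unfold lf
        rw [Fin.cons_succ, Fin.snoc_castSucc, Fin.sum_univ_succ]
        simp
      rw [Fin.snoc_castSucc, e1, ← Nat.cast_add, Int.toNat_natCast]
  have h4 : ∑ t ∈ Fintype.piFinset (fun r => Ioc (v N r) (v N r + K N)), G t =
      ∑ t ∈ Tb (v N) (K N), G t := rfl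
  rw [h4]
  have h5 : ∑ t ∈ Tb (Fin.cons 0 (v N) : Fin (R + 1) → ℕ) (K N), G (fun r => t r.succ) /
      ((K N : ℝ) ^ (R + 1) * (N : ℝ) ^ 2) =
      (∑ t ∈ Tb (v N) (K N), G t) / ((K N : ℝ) ^ R * (N : ℝ) ^ 2) := by
    rw [← Finset.sum_div, h2, pow_succ]
    rcases eq_or_ne (N : ℝ) 0 with h0 | h0
    · simp [h0]
    · field_simp
  rw [← h5, Finset.sum_div]
  apply Finset.sum_congr rfl
  intro t _
  rw [h3]

end Pool.Agent.H28.GN
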