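import Pool.Agent.H28.GN.FD

/-!
Theorem G: targets for the corollary (section 5 of `H28_GN.md`): from the core to linear forms.
-/

set_option autoImplicit false

open Filter Topology Finset

namespace Pool.Agent.H28.GN

open Pool.Agent.H28.LF (lt Um)

/-- `f(n) = u(1) ⋯ u(n)`, and `1` for `n ≤ 0` -/
noncomputable def fz (u : Bool × Bool → ℂ) (n : ℤ) : ℂ := ∏ i ∈ range n.toNat, u (lt (i + 1))

/-- the complex conjugate -/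
noncomputable def cj (z : ℂ) : ℂ := (starRingEnd ℂ) z

/-- box product average, `J` directions of length `H` with step `c` -/
noncomputable def BZ (c H : ℕ) : ℕ → (ℤ → ℂ) → ℤ → ℂ
  | 0, Φ, m => Φ m
  | J + 1, Φ, m => (∑ x ∈ range H, ∑ y ∈ range H,
      BZ c H J (fun a => Φ (a + c * x) * cj (Φ (a + c * y))) m) / (H : ℂ) ^ 2

/-- the same with one direction more, of length `K` with step `1` -/
noncomputable def DZ (c H K : ℕ) : ℕ → (ℤ → ℂ) → ℤ → ℝ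
  | 0, Φ, m => ‖(∑ k ∈ range K, Φ (m + k + 1)) / K‖ ^ 2
  | J + 1, Φ, m => (∑ x ∈ range H, ∑ y ∈ range H,
      DZ c H K J (fun a => Φ (a + c * x) * cj (Φ (a + c * y))) m) / (H : ℝ) ^ 2

/-- the linear form with the coefficients `a` -/
def lf {R : ℕ} (a : Fin R → ℕ) (t : Fin R → ℕ) : ℕ := ∑ r, a r * t r

/-- the parameters -/
def Tk (R K : ℕ) : Finset (Fin R → ℕ) := Fintype.piFinset fun _ => Icc 1 K

/-- mean over the parameters `t ∈ [K] ^ R` and the `n` in the window `(w, w + M]` -/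
noncomputable def EM {R : ℕ} (K M : ℕ) (w : ℤ) (X : (Fin R → ℕ) → ℤ → ℂ) : ℂ :=
  (∑ t ∈ Tk R K, ∑ n ∈ Ioc w (w + M), X t n) / ((K : ℂ) ^ R * M)

/-- `c` is a multiple of a difference of coefficients of the form `j + 1` and the form `0` -/
def Dv {J R : ℕ} (c : ℕ) (a : Fin (J + 1) → Fin R → ℕ) : Prop :=
  ∀ j : Fin J, ∃ r, a j.succ r ≠ a 0 r ∧ ((a j.succ r : ℤ) - a 0 r) ∣ (c : ℤ)

/-- BRW: the two forms of the box averages, for a word `w`. -/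
def T_BRW : Prop := ∀ (u : Bool × Bool → ℂ) (c J H K : ℕ) (w : ℕ → Bool × Bool) (Φ : ℤ → ℂ)
  (m : ℤ), (∀ b, ‖u b‖ = 1) → 0 < H → 0 < K → (∀ n, ‖Φ n‖ = 1) →
  (∀ i : ℕ, Φ (m + i + 1) = Φ (m + i) * u (w i)) → DZ c H K J Φ m = DG u c J H K w

/-- PZ1: positivity: a mean over `x, y < M * N` is controlled by the means over `x, y < N`. -/
def T_PZ1 : Prop := ∀ (c H K J N M : ℕ) (Ψ : ℕ → ℤ → ℂ) (m : ℤ), 0 < H → 0 < K → 0 < N →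
  0 < M →
  (∑ x ∈ range (M * N), ∑ y ∈ range (M * N),
    DZ c H K J (fun a => Ψ x a * cj (Ψ y a)) m) / ((M : ℝ) * N) ^ 2 ≤
  (∑ b ∈ range M, (∑ x ∈ range N, ∑ y ∈ range N,
    DZ c H K J (fun a => Ψ (N * b + x) a * cj (Ψ (N * b + y) a)) m) / (N : ℝ) ^ 2) / M

/-- MZ1: monotonicity in the length of the boxes (from `T_PZ1`). -/
def T_MZ1 : Prop := ∀ (c H K M J : ℕ) (Φ : ℤ → ℂ) (m : ℤ), 0 < H → 0 < K → 0 < M →
  DZ c (M * H) K J Φ m ≤ (∑ b ∈ Fintype.piFinset (fun _ : Fin J => range M),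
    DZ c H K J Φ (m + c * (H * ∑ j, (b j : ℤ)))) / (M : ℝ) ^ J

/-- MZ2: monotonicity in the length of the last direction. -/
def T_MZ2 : Prop := ∀ (c H K M J : ℕ) (Φ : ℤ → ℂ) (m : ℤ), 0 < H → 0 < K → 0 < M →
  DZ c H (M * K) J Φ m ≤ (∑ b ∈ range M, DZ c H K J Φ (m + K * b)) / M

/-- BRG: the two forms of the box averages (from `T_BRW`). -/
def T_BRG : Prop := ∀ (u : Bool × Bool → ℂ) (c J H K n : ℕ), (∀ b, ‖u b‖ = 1) → 0 < H →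
  0 < K → DZ c H K J (fz u) (n : ℤ) = DG u c J H K (wN n)

/-- BZD: the last direction. -/
def T_BZD : Prop := ∀ (c H h J : ℕ) (Φ : ℤ → ℂ) (m : ℤ), 0 < h →
  (∑ k ∈ range h, ∑ k' ∈ range h,
    BZ c H J (fun a => Φ (a + k + 1) * cj (Φ (a + k' + 1))) m) / (h : ℂ) ^ 2 =
      (DZ c H h J Φ m : ℂ)

/-- GV1: one step (Cauchy and Schwarz in the direction in which the function `G (Fin.last J)` does
not move). The constant `A` depends on the coefficients, `c` and `H` only. -/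
def T_GV1 : Prop := ∀ (J R : ℕ) (a : Fin (J + 2) → Fin R → ℕ) (c H : ℕ), 0 < H → 0 < c →
  Dv c a → ∃ (A : ℝ) (e : ℕ → Fin J → ℤ) (s : ℤ), 0 ≤ A ∧
  ∀ (F : ℤ → ℂ) (G : Fin (J + 1) → ℤ → ℂ) (w : ℤ) (M K : ℕ), (∀ n, ‖F n‖ ≤ 1) →
    (∀ j n, ‖G j n‖ ≤ 1) → 0 < M → 0 < K →
    ‖EM K M w (fun t n => F (n + lf (a 0) t) * ∏ j, G j (n + lf (a j.succ) t))‖ ^ 2 ≤
      (∑ x ∈ range H, ∑ y ∈ range H, (EM K M w (fun t n =>
        (F (n + lf (a 0) t + s + c * x) * cj (F (n + lf (a 0) t + s + c * y))) *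
        ∏ j : Fin J, (G j.castSucc (n + lf (a j.castSucc.succ) t + e x j) *
          cj (G j.castSucc (n + lf (a j.castSucc.succ) t + e y j))))).re) / (H : ℝ) ^ 2 +
      A * (1 / M + 1 / K)

/-- GVI: elimination of all functions but `F` (induction with `T_GV1`). -/
def T_GVI : Prop := ∀ (J R : ℕ) (a : Fin (J + 1) → Fin R → ℕ) (c H : ℕ), 0 < J → 0 < H →
  0 < c → Dv c a → ∃ (A : ℝ) (s : ℤ), 0 ≤ A ∧
  ∀ (F : ℤ → ℂ) (G : Fin J → ℤ → ℂ) (w : ℤ) (M K : ℕ), (∀ n, ‖F n‖ ≤ 1) →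
    (∀ j n, ‖G j n‖ ≤ 1) → 0 < M → 0 < K →
    ‖EM K M w (fun t n => F (n + lf (a 0) t) * ∏ j, G j (n + lf (a j.succ) t))‖ ^ (2 ^ J) ≤
      (EM K M w (fun t n => BZ c H J F (n + lf (a 0) t + s))).re + A * (1 / M + 1 / K)

/-- GVN: the generalised inequality of von Neumann (from `T_GVI`, `T_BZD`, inequality of
van der Corput in the variable `n`). -/
def T_GVN : Prop := ∀ (J R : ℕ) (a : Fin (J + 1) → Fin R → ℕ) (c h : ℕ), 0 < J → 0 < h →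
  0 < c → Dv c a → ∃ A : ℝ, 0 ≤ A ∧
  ∀ (f : ℤ → ℂ) (g : Fin J → ℤ → ℂ) (w : ℤ) (M K : ℕ), (∀ n, ‖f n‖ ≤ 1) →
    (∀ j n, ‖g j n‖ ≤ 1) → 0 < M → 0 < K →
    ((∑ t ∈ Tk R K, ‖(∑ n ∈ Ioc w (w + M), f (n + lf (a 0) t) *
        ∏ j, g j (n + lf (a j.succ) t)) / M‖) / (K : ℝ) ^ R) ^ (2 ^ (J + 1)) ≤
      (∑ t ∈ Tk R K, ∑ n ∈ Ioc w (w + M), DZ c h h J f (n + lf (a 0) t)) / ((K : ℝ) ^ R * M) +
      A * (1 / M + 1 / K)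

/-- GF1: one `N`: families of disjoint intervals (from `T_GVN`; grid of windows of length `M`,
and `a ≤ δ + a ^ p / δ ^ (p - 1)`). The constant `B` does not depend on `h`. -/
def T_GF1 : Prop := ∀ (J : ℕ) (δ : ℝ), 0 < J → 0 < δ → ∃ B : ℝ, 0 ≤ B ∧
  ∀ (R : ℕ) (a : Fin (J + 1) → Fin R → ℕ) (c h : ℕ), 0 < h → 0 < c → Dv c a →
  ∃ K₀ : ℕ, 0 < K₀ ∧
  ∀ (f : ℤ → ℂ) (g : Fin J → ℤ → ℂ) (N K : ℕ) (I : (Fin R → ℕ) → Finset (ℕ × ℕ)),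
    (∀ n, ‖f n‖ ≤ 1) → (∀ j n, ‖g j n‖ ≤ 1) → K₀ ≤ K → K₀ ≤ N →
    (∀ t, ∀ S ∈ I t, S.1 + K₀ ≤ S.2 ∧ S.2 ≤ N) →
    (∀ t, (I t : Set (ℕ × ℕ)).PairwiseDisjoint (fun S => Ioc S.1 S.2)) →
    (∑ t ∈ Tk R K, ∑ S ∈ I t, ‖∑ n ∈ Ioc (S.1 : ℤ) S.2, f (n + lf (a 0) t) *
        ∏ j, g j (n + lf (a j.succ) t)‖) / ((K : ℝ) ^ R * N) ≤
      δ + B * ((∑ t ∈ Tk R K, ∑ n ∈ Icc 1 N, DZ c h h J f (n + lf (a 0) t)) / ((K : ℝ) ^ R * N))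

/-- the box of the parameters with the corner `v` -/
def Tb {R : ℕ} (v : Fin R → ℕ) (K : ℕ) : Finset (Fin R → ℕ) :=
  Fintype.piFinset fun r => Ioc (v r) (v r + K)

/-- the general form of Theorem G for the function `u` -/
def ThmG (u : Bool × Bool → ℂ) : Prop := ∀ (J R : ℕ) (a : Fin (J + 1) → Fin R → ℕ), 0 < J →
  (∀ j : Fin J, a j.succ ≠ a 0) → ∀ ε : ℝ, 0 < ε → ∃ K₀ : ℕ, 0 < K₀ ∧
  ∀ (x y : ℕ) (K : ℕ → ℕ) (v : ℕ → Fin R → ℕ) (g : ℕ → Fin J → ℤ → ℂ)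
    (I : ℕ → (Fin R → ℕ) → Finset (ℕ × ℕ)),
    K₀ ≤ x → K₀ * x ≤ y → (∀ N, K₀ ≤ N → K₀ ≤ K N ∧ K N ≤ N) → (∀ N r, v N r ≤ N) →
    (∀ N j n, ‖g N j n‖ ≤ 1) → (∀ N t, ∀ S ∈ I N t, S.1 + K₀ ≤ S.2 ∧ S.2 ≤ N) →
    (∀ N t, (I N t : Set (ℕ × ℕ)).PairwiseDisjoint (fun S => Ioc S.1 S.2)) →
    ∑ N ∈ Icc x y, (∑ t ∈ Tb (v N) (K N), ∑ S ∈ I N t, ‖∑ n ∈ Ioc (S.1 : ℤ) S.2,
      fz u (n + lf (a 0) t) * ∏ j, g N j (n + lf (a j.succ) t)‖) /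
        ((K N : ℝ) ^ R * (N : ℝ) ^ 2) ≤ ε * Real.log ((y : ℝ) / x)

/-- GF2: the general form (from `T_GF1`, `T_BRG` and the core). -/
def T_GF2 : Prop := ∀ u : Bool × Bool → ℂ, Um u → (∀ c J : ℕ, 0 < c → 0 < J → CoreG u c J) →
  ThmG u

end Pool.Agent.H28.GN
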