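import Pool.Agent.H28.GN.FD
import Pool.Agent.H83.X.T3

/-!
Theorem G: targets for the front end (sections 2, 3, 4 of `H28_GN.md`).
-/

set_option autoImplicit false

open MeasureTheory ProbabilityTheory Filter Topology Finset
open scoped Nat ENNReal

namespace Pool.Agent.H28.GN

open Pool.Agent.H24.T2 (Pset)
open Pool.Agent.H28.MCL (ldB Aw)
open Pool.Agent.H67.AG (avgP ul Inv Rt Av)
open Pool.Agent.H28.LF (Wd La Cd dm ds lt ng SS ptS LX Xi LY Yi shX shY lX lY btY flY xiY SysX SysY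
  CompY LwY ExY Wa DcO sY GoodC Um wX Ix)
open Pool.Agent.H83.X (ldI)

/-! ### positions and codes -/

/-- ACT: most boxes are active. -/
def T_ACT : Prop := ∀ J c b H : ℕ, 0 < c → 0 < H →
  ((univ.filter fun t : Fin J → Bool → Fin H => ¬ Act J c b H t).card : ℝ) ≤
    4 ^ J * (2 * b / H) * (H : ℝ) ^ (2 * J)

/-- SPR: the spread of the positions (from `T_STC` with `γ / 2`, `D = b`, and `T_SM1`). -/
def T_SPR : Prop := ∀ (J c b H : ℕ) [Nonempty (PtG J c b H)] (U : Ultrafilter ℕ) (γ κ : ℝ)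
  (I : Finset (Pl J b)), (U : Filter ℕ) ≤ atTop → 0 < J → 0 < c → 0 < b → 0 < γ → γ ≤ 1 →
  0 < κ → κ ≤ γ ^ 2 / (65536 * c * J) → 128 * 2 ^ J * b ≤ γ * H →
  (H : ℝ) ^ (2 * J) ≤ 2 * Fintype.card (PtG J c b H) →
  Spr U (fun t : PtG J c b H => po t) I γ κ

/-- POI: the positions of an active box are distinct. -/
def T_POI : Prop := ∀ (J c b H : ℕ) (t : PtG J c b H), Function.Injective (po t)

/-- CIM: half of the places are in the middle. -/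
def T_CIM : Prop := ∀ J Q : ℕ, Fintype.card (Pl J (3 * Q + Q)) = 2 * (Im J Q (3 * Q)).card ∧
  Fintype.card (Pl J (3 * Q + Q)) = 2 ^ J * (4 * Q)

/-- CDG: good words have no isolated mismatch in the middle (as `Pool.Agent.H28.LF.T_COD`). -/
def T_CDG : Prop := ∀ (J : ℕ) (u : Bool × Bool → ℂ) (ix : Bool × Bool → Fin 4) (e z ζ : ℝ)
  (Q L : ℕ), Um u → Ix u ix → 0 < e → 0 < ζ → 0 ≤ z → 5 * z < e * ζ →
  (∀ b b', u b ≠ u b' → ζ ≤ ‖u b - u b'‖) → CodeG (Im J Q L) (BadG J u ix e z Q L)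

/-! ### monotonicity -/

/-- BDG: basic facts on the box averages. -/
def T_BDG : Prop := ∀ (u : Bool × Bool → ℂ) (c J H K : ℕ), (∀ b, ‖u b‖ = 1) → 0 < H → 0 < K →
  (∀ w, 0 ≤ DG u c J H K w ∧ DG u c J H K w ≤ 1) ∧
  (∀ w w', (∀ i < c * J * H + K, w i = w' i) → DG u c J H K w = DG u c J H K w') ∧
  Continuous (fun ξ : Xi => DG u c J H K (wX ξ)) ∧
  (Set.range fun w : ℕ → Bool × Bool => DG u c J H K w).Finite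

/-- MN1: monotonicity in the length of the boxes (from `T_MZ1`, `T_BRW` in `T4.lean`). -/
def T_MN1 : Prop := ∀ (u : Bool × Bool → ℂ) (c J H K M : ℕ) (w : ℕ → Bool × Bool),
  (∀ b, ‖u b‖ = 1) → 0 < H → 0 < K → 0 < M →
  DG u c J (M * H) K w ≤ (∑ b ∈ Fintype.piFinset (fun _ : Fin J => range M),
    DG u c J H K (fun i => w (i + c * (H * ∑ j, b j)))) / (M : ℝ) ^ J

/-- MN2: monotonicity in the length of the last direction (from `T_MZ2`, `T_BRW`). -/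
def T_MN2 : Prop := ∀ (u : Bool × Bool → ℂ) (c J H K M : ℕ) (w : ℕ → Bool × Bool),
  (∀ b, ‖u b‖ = 1) → 0 < H → 0 < K → 0 < M →
  DG u c J H (M * K) w ≤ (∑ b ∈ range M, DG u c J H K (fun i => w (i + K * b))) / M

/-- MNX: monotonicity for invariant measures (from `T_MN1`, `T_MN2`, `T_BDG`). -/
def T_MNX : Prop := ∀ (u : Bool × Bool → ℂ) (c J H K M : ℕ) (ν : Measure Xi),
  (∀ b, ‖u b‖ = 1) → IsProbabilityMeasure ν → MeasurePreserving shX ν ν → 0 < H → 0 < K →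
  0 < M →
  ∫ ξ, DG u c J (M * H) K (wX ξ) ∂ν ≤ ∫ ξ, DG u c J H K (wX ξ) ∂ν ∧
  ∫ ξ, DG u c J H (M * K) (wX ξ) ∂ν ≤ ∫ ξ, DG u c J H K (wX ξ) ∂ν

/-! ### windows and the measure on the `n`-side -/

/-- GWN: disjoint long windows on which the core fails (as `Pool.Agent.H28.LF.T_WIN`). -/
def T_GWN : Prop := ∀ (u : Bool × Bool → ℂ) (c J : ℕ), Um u → ¬ CoreG u c J →
  ∃ (ε : ℝ) (x y : ℕ → ℕ), 0 < ε ∧ (∀ j, 0 < x j ∧ x j ≤ y j ∧ y j < x (j + 1)) ∧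
    (∀ j : ℕ, (j : ℝ) * 8 ^ j ≤ Real.log ((y j : ℝ) / x j)) ∧
    ∀ j, ε * Real.log ((y j : ℝ) / x j) ≤
      ∑ n ∈ Icc (x j) (y j), DG u c J (2 ^ j) (2 ^ j) (wN n) / n

/-- GLB: the logarithmic means of all box averages are large (from `T_GWN`, `T_MN1`, `T_MN2`). -/
def T_GLB : Prop := ∀ (u : Bool × Bool → ℂ) (c J : ℕ), Um u → ¬ CoreG u c J →
  ∃ (ε : ℝ) (U : Ultrafilter ℕ) (x y : ℕ → ℕ), 0 < ε ∧ ε ≤ 1 ∧ Aw U x y ∧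
    ∀ r : ℕ, ε ≤ ldI U x y (fun n => DG u c J (2 ^ r) (2 ^ r) (wN n))

/-- GSX: the measure on the `n`-side (from `T_SHP`, `T_XLI`; compare `Pool.Agent.H83.X.T_XSX`). -/
def T_GSX : Prop := ∀ (u : Bool × Bool → ℂ) (c J : ℕ) (ε : ℝ) (U : Ultrafilter ℕ)
  (x y : ℕ → ℕ), (∀ b, ‖u b‖ = 1) → Aw U x y →
  (∀ r : ℕ, ε ≤ ldI U x y (fun n => DG u c J (2 ^ r) (2 ^ r) (wN n))) →
  ∃ PX : Measure Xi, SysX (fun _ => 1) 0 PX ∧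
    (∀ C : Set Xi, IsClopen C → PX.real C = ldB U x y {n | ptS (lX fun _ _ => false) n ∈ C}) ∧
    ∀ r : ℕ, ε ≤ ∫ ξ, DX u c J r ξ ∂PX

/-- FST: the invariant set of the `n`-side (from `T_BK`, `T_MNX`, `T_BDG`). -/
def T_FST : Prop := ∀ (u : Bool × Bool → ℂ) (c J : ℕ) (ε : ℝ) (PX : Measure Xi),
  (∀ b, ‖u b‖ = 1) → 0 < ε → IsProbabilityMeasure PX → MeasurePreserving shX PX PX →
  (∀ r : ℕ, ε ≤ ∫ ξ, DX u c J r ξ ∂PX) → ∃ F : Set Xi, FpX u c J (ε / 2) F ∧ ε / 2 ≤ PX.real F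

/-- BST: the exceptional sets of the `n`-side (from `T_BK`, `T_MNX`, `T_BDG`). -/
def T_BST : Prop := ∀ (u : Bool × Bool → ℂ) (c J : ℕ) (γ₀ : ℝ) (PX : Measure Xi),
  (∀ b, ‖u b‖ = 1) → 0 < γ₀ → IsProbabilityMeasure PX → MeasurePreserving shX PX PX →
  ∃ (k : ℕ → ℕ) (B : ℕ → Set Xi), BpX u c J k B ∧ ∀ r, PX.real (B r) ≤ γ₀ / (64 * 4 ^ r)

/-! ### components -/

/-- NUP: the law of the point of the `n`-side on the multiples of `p`. -/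
def T_NUP : Prop := ∀ (ν : Measure Yi) (p : ℕ), CompY ν → p.Prime →
  IsProbabilityMeasure (nuP p ν) ∧ Ergodic shX (nuP p ν) ∧
  (∀ C, MeasurableSet C → (nuP p ν).real C = p * ν.real (flY p ∩ xiY p ⁻¹' C)) ∧
  ∀ F, MeasurableSet F → shX ⁻¹' F = F → ν.real (xiY p ⁻¹' F) = 1 → (nuP p ν).real F = 1

/-- MEG: the limit of the means for one box (mean ergodic theorem for
`ψ ↦ st(0) ψ ∘ T`; as `Pool.Agent.H28.LF.T_MEA`). -/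
def T_MEG : Prop := ∀ (J : ℕ) (u : Bool × Bool → ℂ) (c : ℕ) (t : Fin J → Bool → ℕ)
  (ν : Measure Xi), (∀ b, ‖u b‖ = 1) → IsProbabilityMeasure ν → Ergodic shX ν →
  Tendsto (fun K : ℕ => ∫ ξ, ‖mm u K (bl c t (wX ξ)) 0‖ ^ 2 ∂ν) atTop (𝓝 (qT u c t ν)) ∧
  ∃ m : Xi → ℂ, Measurable m ∧ (∀ᵐ ξ ∂ν, ‖m ξ‖ ^ 2 = qT u c t ν) ∧
    (∀ᵐ ξ ∂ν, st u (bl c t (wX ξ)) 0 * m (shX ξ) = m ξ) ∧
    ∀ K, 0 < K → ∫ ξ, ‖mm u K (bl c t (wX ξ)) 0 - m ξ‖ ^ 2 ∂ν =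
      ∫ ξ, ‖mm u K (bl c t (wX ξ)) 0‖ ^ 2 ∂ν - qT u c t ν

/-- AVQ: averages over the boxes (from `T_MNX`, `T_MEG`, `T_BDG`). -/
def T_AVQ : Prop := ∀ (u : Bool × Bool → ℂ) (c J s : ℕ) (ν : Measure Xi),
  (∀ b, ‖u b‖ = 1) → IsProbabilityMeasure ν → Ergodic shX ν →
  (∀ t : Fin J → Bool → ℕ, 0 ≤ qT u c t ν ∧ qT u c t ν ≤ 1) ∧
  (∀ ε : ℝ, (∀ r, ε ≤ ∫ ξ, DX u c J r ξ ∂ν) →
    ε * ((2 : ℝ) ^ s) ^ (2 * J) ≤ ∑ t ∈ Bx J (2 ^ s), qT u c t ν) ∧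
  ∀ (δ : ℝ) (k : ℕ), k ≤ s →
    (∀ r, k ≤ r → ∫ ξ, DX u c J k ξ ∂ν - ∫ ξ, DX u c J r ξ ∂ν ≤ δ) →
    ∑ t ∈ Bx J (2 ^ s), (∫ ξ, ‖mm u (2 ^ k) (bl c t (wX ξ)) 0‖ ^ 2 ∂ν - qT u c t ν) ≤
      δ * ((2 : ℝ) ^ s) ^ (2 * J)

/-- BDW: the bad words on the multiples of one prime, for one box (from `T_NUP`, `T_MEG`). -/
def T_BDW : Prop := ∀ (u : Bool × Bool → ℂ) (ix : Bool × Bool → Fin 4) (c J Q L H p : ℕ)
  (α z : ℝ) (ν : Measure Yi) (t : PtG J c (L + Q) H), (∀ b, ‖u b‖ = 1) → Ix u ix →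
  CompY ν → p.Prime → 0 < Q → 0 < α → 0 < z → z ≤ Real.sqrt α → α ≤ qT u c (tn t) (nuP p ν) →
  p * ν.real (flY p ∩ {ω | Wd shY (aG ix) (c * J * H + (L + Q)) p ω ∈
      Lft (po t) (BadG J u ix (Real.sqrt α / 2) z Q L)}) ≤
    8 / z ^ 2 * (∫ ξ, ‖mm u Q (bl c (tn t) (wX ξ)) 0‖ ^ 2 ∂(nuP p ν) -
      qT u c (tn t) (nuP p ν)) +
    ∑ j ∈ Icc 1 (c * J * H + (L + Q)), p * ν.real (flY p ∩ ExY p j)

/-- RLG: the bad words on average over the primes of a good scale (from `T_BDW`, `T_AVQ`,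
`T_NUP`; as `Pool.Agent.H28.LF.T_RLY`). -/
def T_RLG : Prop := ∀ (u : Bool × Bool → ℂ) (ix : Bool × Bool → Fin 4) (c J r s i m' : ℕ)
  (α z γ₀ : ℝ) (F : Set Xi) (k : ℕ → ℕ) (B : ℕ → Set Xi) (ν : Measure Yi)
  [Nonempty (PtG J c (3 * 2 ^ k r + 2 ^ k r) (2 ^ s))], Um u → Ix u ix → CompY ν →
  MeasurableSet F → shX ⁻¹' F = F → BpX u c J k B → 0 < α → 0 < z → z ≤ Real.sqrt α →
  k r ≤ s →
  ((2 : ℝ) ^ s) ^ (2 * J) ≤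
    2 * Fintype.card (PtG J c (3 * 2 ^ k r + 2 ^ k r) (2 ^ s)) →
  c * J * 2 ^ s + (3 * 2 ^ k r + 2 ^ k r) ≤ i → GoodC F B γ₀ ν i m' →
  avgP 2 m' (fun p => (∑ t : PtG J c (3 * 2 ^ k r + 2 ^ k r) (2 ^ s), sG u α F ν t p *
    ν.real {ω | Wd shY (aG ix) (c * J * 2 ^ s + (3 * 2 ^ k r + 2 ^ k r)) p ω ∈
      Lft (po t) (BadG J u ix (Real.sqrt α / 2) z (2 ^ k r) (3 * 2 ^ k r))}) /
    Fintype.card (PtG J c (3 * 2 ^ k r + 2 ^ k r) (2 ^ s))) ≤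
  160 / (z ^ 2 * 4 ^ r) + 10 / 2 ^ r + 12 / ((i : ℝ) + 1)

/-- DNG: the flags are dense at a good scale (from `T_AVQ`, `T_NUP`, `T_ACT`). -/
def T_DNG : Prop := ∀ (u : Bool × Bool → ℂ) (c J b s i m' : ℕ) (ε γ₀ : ℝ) (F : Set Xi)
  (B : ℕ → Set Xi) (ν : Measure Yi) [Nonempty (PtG J c b (2 ^ s))], Um u → 0 < c → CompY ν →
  FpX u c J ε F → 0 < ε → 4 ^ J * (2 * b / (2 : ℝ) ^ s) ≤ ε / 4 → GoodC F B γ₀ ν i m' →
  γ₀ / 2 * (ε / 4) ≤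
    avgP 2 m' (fun p => (∑ t : PtG J c b (2 ^ s), sG u (ε / 2) F ν t p) /
      Fintype.card (PtG J c b (2 ^ s)))

/-- NPG: the process is far from periodic (as `Pool.Agent.H83.V.T_NPV`). -/
def T_NPG : Prop := ∀ (u : Bool × Bool → ℂ) (ix : Bool × Bool → Fin 4) (ν : Measure Yi),
  Um u → Ix u ix → CompY ν → ∀ r : ℕ, 0 < r →
  ∃ j : ℕ, 1 / 1000 < ν.real {ω | aG ix (shY^[r * j] ω) ≠ aG ix ω}

/-- GXY: the data (as `Pool.Agent.H83.V.T_VXY`; from `T_PGP`, `T_LPP`, `T_TPP`, `T_SPR`,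
`T_POI`, `T_CIM`, `T_CDG`, `T_ACT`, `T_RLG`, `T_DNG`, `T_NPG`). -/
def T_GXY : Prop := ∀ (u : Bool × Bool → ℂ) (ix : Bool × Bool → Fin 4) (c J : ℕ)
  (ε ζ γ₀ : ℝ) (F : Set Xi) (k : ℕ → ℕ) (B : ℕ → Set Xi) (ν : Measure Yi), Um u → Ix u ix →
  0 < c → 0 < J → 0 < ε → ε ≤ 1 → 0 < ζ → ζ ≤ 2 → (∀ b b', u b ≠ u b' → ζ ≤ ‖u b - u b'‖) →
  0 < γ₀ → γ₀ ≤ 1 → CompY ν → FpX u c J ε F → BpX u c J k B →
  (∃ᶠ i in atTop, ∃ m', GoodC F B γ₀ ν i m') → Nonempty Gx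

end Pool.Agent.H28.GN
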