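import Pool.Agent.H28.GN.FinG
import Pool.Agent.H28.GN.Hand
import Pool.Agent.H83.GN.AllG
import Pool.Agent.H46.GN.ACT
import Pool.Agent.H45.GN.F
import Pool.Agent.H4.THG.BDG
import Pool.Agent.H5.GN.BDW
import Pool.Agent.H97.GN.BX
import Pool.Agent.H96.GN.BST
import Pool.Agent.H96.GN.FST
import Pool.Agent.H96.GN.RLG
import Pool.Agent.H19.GN.BZD
import Pool.Agent.H19.GN.GVI
import Pool.Agent.H19.GN.GVN
import Pool.Agent.H37.GN.CDG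
import Pool.Agent.H37.GN.GLB
import Pool.Agent.H51.GN.DNG
import Pool.Agent.H51.GN.GWN
import Pool.Agent.H70.GN.GSX
import Pool.Agent.H12.GN.GV1
import Pool.Agent.H74.THG.GXY
import Pool.Agent.H7.GN.MEG
import Pool.Agent.H7.GN.SPR
import Pool.Agent.H61.GN.MN1
import Pool.Agent.H40.GN.NPG
import Pool.Agent.H10.GN.NUP
import Pool.Agent.H67.GN.POI
import Pool.Agent.H48.X.XLI

/-!
Theorem G: the core, closed.
-/

set_option autoImplicit false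

namespace Pool.Agent.H28.GN.AllG

open Pool.Agent.H67.AG.AllF
open Pool.Agent.H28.GN
open Pool.Agent.H83.V (v_BK v_LDB v_SHP v_YEX v_YLW v_YRL v_YST v_YSQ v_YMR v_CMP v_SEL v_DVS v_TPL)
open Pool.Agent.H83.GN (g_SM1 g_PGP g_LPP g_TPP g_CIM noGx)

theorem a_BRW : T_BRW := Pool.Agent.H97.GNG.pf_BRW
theorem a_PZ1 : T_PZ1 := Pool.Agent.H97.GNG.pf_PZ1
theorem a_MZ1 : T_MZ1 := Pool.Agent.H97.GNG.pf_MZ1 a_PZ1
theorem a_MZ2 : T_MZ2 := Pool.Agent.H97.GNG.pf_MZ2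
theorem a_MN1 : T_MN1 := Pool.Agent.H61.GNG.pf_MN1 a_BRW a_MZ1
theorem a_MN2 : T_MN2 := Pool.Agent.H61.GNG.pf_MN2 a_BRW a_MZ2
theorem a_BDG : T_BDG := Pool.Agent.H4.THG.pf_BDG
theorem a_MNX : T_MNX := Pool.Agent.H45.GNG.pf_MNX a_MN1 a_MN2 a_BDG
theorem a_GWN : T_GWN := Pool.Agent.H51.GNG.pf_GWN a_BDG
theorem a_GLB : T_GLB := Pool.Agent.H37.GNG.pf_GLB a_GWN a_MN1 a_MN2 a_BDG
theorem a_GSX : T_GSX := Pool.Agent.H70.GNG.pf_GSX v_SHP Pool.Agent.H48.X.pf_XLI v_LDB a_BDG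
theorem a_FST : T_FST := Pool.Agent.H96.GN.pf_FST v_BK a_MNX a_BDG
theorem a_BST : T_BST := Pool.Agent.H96.GN.pf_BST v_BK a_MNX a_BDG
theorem a_NUP : T_NUP := Pool.Agent.H10.GNG.pf_NUP v_DVS v_TPL
theorem a_MEG : T_MEG := Pool.Agent.H7.GNG.pf_MEG
theorem a_AVQ : T_AVQ := Pool.Agent.H45.GNG.pf_AVQ a_MNX a_MEG a_BDG
theorem a_BDW : T_BDW := Pool.Agent.H5.GN.pf_BDW a_NUP a_MEG
theorem a_RLG : T_RLG := Pool.Agent.H96.GN.pf_RLG a_BDW a_AVQ a_NUP a_MEG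
theorem a_ACT : T_ACT := Pool.Agent.H46.GN.pf_ACT
theorem a_DNG : T_DNG := Pool.Agent.H51.GNG.pf_DNG a_AVQ a_NUP a_ACT
theorem a_NPG : T_NPG := Pool.Agent.H40.GNG.pf_NPG v_DVS c_ME
theorem a_SPR : T_SPR := Pool.Agent.H7.GNG.pf_SPR Pool.Agent.H83.V.v_STC g_SM1
theorem a_POI : T_POI := Pool.Agent.H67.GN.pf_POI
theorem a_CDG : T_CDG := Pool.Agent.H37.GNG.pf_CDG
theorem a_GXY : T_GXY := Pool.Agent.H74.THG.pf_GXY g_PGP g_LPP g_TPP a_SPR a_POI g_CIM a_CDG a_ACT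
  a_RLG a_DNG a_NPG c_UL

/-- the core of Theorem G -/
theorem coreG (u : Bool × Bool → ℂ) (c J : ℕ) (hu : Pool.Agent.H28.LF.Um u) (hc : 0 < c)
    (hJ : 0 < J) : CoreG u c J :=
  coreG_of a_GLB a_GSX a_FST a_BST v_YEX v_YLW v_YRL v_YST v_YSQ v_YMR v_CMP v_SEL a_GXY noGx
    u c J hu hc hJ

theorem a_BRG : T_BRG := Pool.Agent.H45.GNG.pf_BRG a_BRW
theorem a_BZD : T_BZD := Pool.Agent.H19.GN.pf_BZD
theorem a_GV1 : T_GV1 := Pool.Agent.H12.GNG.pf_GV1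
theorem a_GVI : T_GVI := Pool.Agent.H19.GN.pf_GVI a_GV1
theorem a_GVN : T_GVN := Pool.Agent.H19.GN.pf_GVN a_GVI a_BZD

end Pool.Agent.H28.GN.AllG
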