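import Pool.Agent.H83.V.T3

/-!
Theorem G (`MP_c59857_nt`: `λ(n!)` is locally Gowers uniform of every order).  Definitions for the
ergodic part.  The proof on paper is in the store, `H28_GN.md`.  The basic objects (`Wd`, `La`,
`Cd`, `dm`, `ds`) are those of `Pool.Agent.H28.LF`; the structures are generalisations of those of
`Pool.Agent.H83.V` (`Vx`, `Sv`, `SvE`): the frequency of the bad words is an average over finitely
many patterns `t`.
-/

set_option autoImplicit false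

open MeasureTheory ProbabilityTheory Filter Topology Finset
open scoped Nat ENNReal

namespace Pool.Agent.H28.GN

open Pool.Agent.H24.T2 (Pset)
open Pool.Agent.H67.AG (avgP ul Inv Rt Av SA kap JJ TT InvZ nxt triv tow XN PN TN XX PX TX prX Fac)
open Pool.Agent.H28.LF (Wd La Cd dm ds)

section basic

variable {Ω : Type} [MeasurableSpace Ω] {q R : ℕ} {Pt : Type} [Fintype Pt]

/-- the asymptotic frequency of the bad words, on average over the patterns, on the set `A` -/
noncomputable def LaG (U : Ultrafilter ℕ) (s : Pt → ℕ → ℝ) (P : Measure Ω) (T : Ω ≃ᵐ Ω)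
    (a : Ω → Fin q) (Bad : Pt → ℕ → Set (Fin R → Fin q)) (A : Set Ω) : ℝ :=
  (∑ t, La U (s t) P T a (Bad t) A) / Fintype.card Pt

/-- few letters of each word matter: the frequency of the bad words changes little -/
def LipG (U : Ultrafilter ℕ) (s : Pt → ℕ → ℝ) (Bad : Pt → ℕ → Set (Fin R → Fin q)) (m : ℕ) :
    Prop :=
  ∀ (Ω : Type) [MeasurableSpace Ω] (P : Measure Ω) [IsProbabilityMeasure P] (T : Ω ≃ᵐ Ω)
    (a a' : Ω → Fin q) (A : Set Ω), MeasurePreserving T P P → Measurable a → Measurable a' →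
    MeasurableSet[Inv T 1] A →
    LaG U s P T a Bad A ≤ LaG U s P T a' Bad A + m * P.real (A ∩ {ω | a ω ≠ a' ω})

/-- the inequality for two processes whose mismatches are rare -/
def PgG (U : Ultrafilter ℕ) (s : Pt → ℕ → ℝ) (Bad : Pt → ℕ → Set (Fin R → Fin q)) (m : ℕ)
    (γ κ : ℝ) : Prop :=
  ∀ (Ω : Type) [MeasurableSpace Ω] (P : Measure Ω) [IsProbabilityMeasure P] (T : Ω ≃ᵐ Ω)
    (a a' : Ω → Fin q) (A : Set Ω), MeasurePreserving T P P → Measurable a → Measurable a' →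
    MeasurableSet[Inv T 1] A →
    (∀ᵐ ω ∂P, ω ∈ A → (P[dm a a' | Inv T 1]) ω ≤ 2 * κ / m) →
    7 / 16 * γ * m * ∫ ω in A, dm a a' ω ∂P ≤ LaG U s P T a Bad A + LaG U s P T a' Bad A

end basic

section cond

variable {X : Type} [MeasurableSpace X] [StandardBorelSpace X] {q : ℕ}

/-- the conditional probability of the symbol `b` -/
noncomputable def wtG (μ : Measure X) (a : X → Fin q) (Z : SA X) (b : Fin q) (x : X) : ℝ :=
  (μ[(a ⁻¹' {b}).indicator (fun _ => (1 : ℝ)) | Z.1]) x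

/-- the conditional probability of a mismatch -/
noncomputable def vvG (μ : Measure X) (a : X → Fin q) (Z : SA X) (x : X) : ℝ :=
  max 0 (min 1 (1 - ∑ b, wtG μ a Z b x ^ 2))

/-- the inequality for the partially resampled process over the tower -/
def TpG {R : ℕ} {Pt : Type} [Fintype Pt] (U : Ultrafilter ℕ) (s : Pt → ℕ → ℝ)
    (Bad : Pt → ℕ → Set (Fin R → Fin q)) (m : ℕ) (γ κ : ℝ) (μ : Measure X)
    [IsProbabilityMeasure μ] (T : X ≃ᵐ X) (a : X → Fin q) : Prop :=
  ∀ (J : ℕ) (th : ℝ), R ≤ J + 1 → 0 ≤ th → th ≤ 1 →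
    (∀ᵐ x ∂μ, (μ[fun x => th * vvG μ a (tow μ T J) x | Inv T 1]) x ≤ 2 * κ / m) →
    7 / 16 * γ * m * ∫ x, th * vvG μ a (tow μ T J) x ∂μ ≤ 2 * LaG U s μ T a Bad Set.univ

end cond

/-- the data for the contradiction: a process whose words along the primes are mostly in a code -/
structure Gx where
  X : Type
  [mX : MeasurableSpace X]
  [sX : StandardBorelSpace X]
  μ : Measure X
  [pμ : IsProbabilityMeasure μ]
  T : X ≃ᵐ X
  erg : Ergodic T μ
  q : ℕ
  a : X → Fin q
  am : Measurable a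
  np : ∀ r : ℕ, 0 < r → ∃ j : ℕ, 1 / 1000 < μ.real {x | a (T^[r * j] x) ≠ a x}
  U : Ultrafilter ℕ
  hU : (U : Filter ℕ) ≤ atTop
  γ : ℝ
  γ0 : 0 < γ
  γ1 : γ ≤ 1
  κ : ℝ
  κ0 : 0 < κ
  κ1 : κ ≤ γ ^ 2 / 16384
  m : ℕ
  m0 : 0 < m
  R : ℕ
  Pt : Type
  [fP : Fintype Pt]
  [nP : Nonempty Pt]
  s : Pt → ℕ → ℝ
  sv : ∀ t p, s t p = 0 ∨ s t p = 1
  Bad : Pt → ℕ → Set (Fin R → Fin q)
  lip : LipG U s Bad m
  pg : PgG U s Bad m γ κ
  tp : TpG U s Bad m γ κ μ T a
  rel : LaG U s μ T a Bad Set.univ ≤ γ ^ 2 * κ / 61036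

namespace Gx

variable (c : Gx)

instance : MeasurableSpace c.X := c.mX
instance : StandardBorelSpace c.X := c.sX
instance : IsProbabilityMeasure c.μ := c.pμ
instance : Fintype c.Pt := c.fP
instance : Nonempty c.Pt := c.nP

/-- the upper end of the gap of the mismatch frequencies -/
noncomputable def uh : ℝ := 2 * c.κ / c.m

/-- the lower end of the gap -/
noncomputable def ulo : ℝ := 8 * (c.γ ^ 2 * c.κ / 61036) / (c.γ * c.m)

open Classical in
/-- mismatch of the symbols of two points -/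
noncomputable def mm (p : c.X × c.X) : ℝ := if c.a p.1 = c.a p.2 then 0 else 1

/-- the frequency of the mismatches of two points -/
noncomputable def M (p : c.X × c.X) : ℝ := limsup (fun n => Av (TT c.T) 1 n c.mm p) atTop

/-- pairs of close points -/
def Ec : Set (c.X × c.X) := {p | c.M p ≤ c.ulo}

/-- close pairs have positive mass in the relatively independent self-joining -/
def CP (Z : SA c.X) : Prop := 0 < (JJ c.μ Z).real c.Ec

/-- the word of length `Λ` at consecutive times -/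
def wd (Λ : ℕ) (x : c.X) : Fin Λ → Fin c.q := fun l => c.a (c.T^[(l : ℕ)] x)

open Classical in
/-- the frequency of the mismatches of two words -/
noncomputable def hd {Λ : ℕ} (v w : Fin Λ → Fin c.q) : ℝ :=
  ((univ.filter fun l => v l ≠ w l).card : ℝ) / Λ

open Classical in
/-- the first reference which is near to a reference which is close to the last point -/
noncomputable def sel (Λ n : ℕ) (p : XX c.X (n + 1)) : Fin (n + 1) :=
  if h : (univ.filter fun b => ∃ b₁, c.hd (c.wd Λ (p.2.1 b)) (c.wd Λ (p.2.1 b₁)) ≤ c.uh / 2 ∧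
      c.hd (c.wd Λ (p.2.1 b₁)) (c.wd Λ p.2.2) ≤ 2 * c.ulo).Nonempty then
    (univ.filter fun b => ∃ b₁, c.hd (c.wd Λ (p.2.1 b)) (c.wd Λ (p.2.1 b₁)) ≤ c.uh / 2 ∧
      c.hd (c.wd Λ (p.2.1 b₁)) (c.wd Λ p.2.2) ≤ 2 * c.ulo).min' h else 0

/-- no reference is close to the last point -/
def NF (Λ n : ℕ) : Set (XX c.X (n + 1)) :=
  {p | ∀ b, 2 * c.ulo < c.hd (c.wd Λ (p.2.1 b)) (c.wd Λ p.2.2)}

/-- the average of the mismatches of the pair `p` in the window `[l, l + n)` -/
noncomputable def wa (l n : ℕ) (p : c.X × c.X) : ℝ := Av (TT c.T) 1 n c.mm ((TT c.T)^[l] p)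

/-- for some pair of references the average of the mismatches in a window differs from the
frequency, or the frequency is in the gap -/
def FE (Λ l n : ℕ) : Set (XX c.X (n + 1)) :=
  {p | ∃ a b, a ≠ b ∧ (c.ulo < |c.wa 0 Λ (p.2.1 a, p.2.1 b) - c.M (p.2.1 a, p.2.1 b)| ∨
    c.ulo < |c.wa l (Λ - l) (p.2.1 a, p.2.1 b) - c.M (p.2.1 a, p.2.1 b)| ∨
    c.ulo < |c.wa l Λ (p.2.1 a, p.2.1 b) - c.M (p.2.1 a, p.2.1 b)| ∨
    (c.ulo < c.M (p.2.1 a, p.2.1 b) ∧ c.M (p.2.1 a, p.2.1 b) ≤ c.uh))}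

end Gx

/-! ### the switching lemma -/

/-- the reference system -/
structure Sg where
  q : ℕ
  n : ℕ
  U : Ultrafilter ℕ
  hU : (U : Filter ℕ) ≤ atTop
  γ : ℝ
  γ0 : 0 < γ
  γ1 : γ ≤ 1
  κ : ℝ
  κ0 : 0 < κ
  κ1 : κ ≤ γ ^ 2 / 16384
  m : ℕ
  m0 : 0 < m
  R : ℕ
  Pt : Type
  [fP : Fintype Pt]
  [nP : Nonempty Pt]
  s : Pt → ℕ → ℝ
  sv : ∀ t p, s t p = 0 ∨ s t p = 1
  Bad : Pt → ℕ → Set (Fin R → Fin q)
  pg : PgG U s Bad m γ κ
  Ω' : Type
  [mΩ' : MeasurableSpace Ω']
  P' : Measure Ω'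
  [pP' : IsProbabilityMeasure P']
  T' : Ω' ≃ᵐ Ω'
  mp' : MeasurePreserving T' P' P'
  y : Fin n → Ω' → Fin q
  ym : ∀ b, Measurable (y b)

namespace Sg

variable (d : Sg)

instance : MeasurableSpace d.Ω' := d.mΩ'
instance : IsProbabilityMeasure d.P' := d.pP'
instance : Fintype d.Pt := d.fP
instance : Nonempty d.Pt := d.nP

/-- the threshold -/
noncomputable def ps : ℝ := d.κ / (2 * d.m)

open Classical in
/-- the word with the reference `j i` at the place `i` is bad for the pattern `t` -/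
noncomputable def FF (t : d.Pt) (p : ℕ) (j : Fin d.R → Fin d.n) (ω : d.Ω') : ℝ :=
  if (fun i => d.y (j i) (d.T'^[p * ((i : ℕ) + 1)] ω)) ∈ d.Bad t p then 1 else 0

end Sg

/-- an extension of the reference system with a selection of a reference -/
structure SgE (d : Sg) where
  Ω : Type
  [mΩ : MeasurableSpace Ω]
  P : Measure Ω
  [pP : IsProbabilityMeasure P]
  T : Ω ≃ᵐ Ω
  mp : MeasurePreserving T P P
  g : Ω → d.Ω'
  fac : Fac P T d.P' d.T' g
  s : Ω → Fin d.n
  sm : Measurable s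

namespace SgE

variable {d : Sg} (e : SgE d)

instance : MeasurableSpace e.Ω := e.mΩ
instance : IsProbabilityMeasure e.P := e.pP

/-- the symbol of the reference which is selected at the time `t` -/
def yt (t : ℕ) (ω : e.Ω) : Fin d.q := d.y (e.s (e.T^[t] ω)) (e.g ω)

/-- the symbol of the selected reference -/
def ys (ω : e.Ω) : Fin d.q := d.y (e.s ω) (e.g ω)

/-- the symbol of the reference `b` -/
def yb (b : Fin d.n) (ω : e.Ω) : Fin d.q := d.y b (e.g ω)

open Classical in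
/-- the selection changes between the times `0` and `l` -/
noncomputable def mv (l : ℕ) (ω : e.Ω) : ℝ := if e.s (e.T^[l] ω) = e.s ω then 0 else 1

/-- the defect of the asymptotic invariance of the bad words, for the pattern `t`, on the set
`A` -/
noncomputable def E2 (t : d.Pt) (L : ℕ) (A : Set e.Ω) : ℝ :=
  ∑ j : Fin d.R → Fin d.n, ul (hyperfilter ℕ) fun L'' => ul d.U fun m =>
    avgP 2 m fun p => d.s t p *
      ∫ ω in A, |Av d.T' 1 L (d.FF t p j) (e.g ω) - Av d.T' 1 L'' (d.FF t p j) (e.g ω)| ∂e.P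

/-- all the defects, on the set `A` -/
noncomputable def EE (L : ℕ) (A : Set e.Ω) : ℝ :=
  2 * LaG d.U d.s e.P e.T e.ys d.Bad A +
  2 * (d.R : ℝ) / (L : ℝ) * ∑ l ∈ range L, ∫ ω in A, e.mv l ω ∂e.P +
  (∑ t, e.E2 t L A) / Fintype.card d.Pt

end SgE

/-! ### patterns -/

section patterns

/-- two words outside of `B` do not have exactly one mismatch, at a place of `I` -/
def CodeG {q : ℕ} {ι : Type} (I : Finset ι) (B : Set (ι → Fin q)) : Prop :=
  ∀ v v' : ι → Fin q, v ∉ B → v' ∉ B → ∀ i ∈ I, v i ≠ v' i → ∃ j, j ≠ i ∧ v j ≠ v' j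

/-- the distance of two natural numbers -/
def dif (a b : ℕ) : ℕ := (a - b) + (b - a)

/-- long words, for which the word at the positions `pos` is in `B` -/
def Lft {q R : ℕ} {ι : Type} (pos : ι → Fin R) (B : Set (ι → Fin q)) : Set (Fin R → Fin q) :=
  {v | (fun i => v (pos i)) ∈ B}

/-- the sum of the correlations over the pairs of positions, on average over the patterns -/
noncomputable def Sp {Ω : Type} [MeasurableSpace Ω] {R : ℕ} {Pt ι : Type} [Fintype Pt] [Fintype ι]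
    [DecidableEq ι] (U : Ultrafilter ℕ) (pos : Pt → ι → Fin R) (I : Finset ι) (P : Measure Ω)
    (T : Ω ≃ᵐ Ω) (f : Ω → ℝ) (A : Set Ω) : ℝ :=
  (∑ t, ∑ i ∈ I, ∑ j ∈ univ.erase i, Cd U P T f A (dif (pos t i : ℕ) (pos t j : ℕ))) /
    Fintype.card Pt

/-- the spread of the positions: the correlations are small if the mean is -/
def Spr {R : ℕ} {Pt ι : Type} [Fintype Pt] [Fintype ι] [DecidableEq ι] (U : Ultrafilter ℕ)
    (pos : Pt → ι → Fin R) (I : Finset ι) (γ κ : ℝ) : Prop :=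
  ∀ (Ω : Type) [MeasurableSpace Ω] (P : Measure Ω) [IsProbabilityMeasure P] (T : Ω ≃ᵐ Ω)
    (f : Ω → ℝ), MeasurePreserving T P P → Measurable f → (∀ ω, 0 ≤ f ω ∧ f ω ≤ 1) →
    (∀ᵐ ω ∂P, (P[f | Inv T 1]) ω ≤ 2 * κ / Fintype.card ι) →
    Sp U pos I P T f Set.univ ≤ γ / 8 * I.card * ∫ ω, f ω ∂P

/-- the flags are dense, on average over the patterns -/
noncomputable def dsG {Pt : Type} [Fintype Pt] (U : Ultrafilter ℕ) (s : Pt → ℕ → ℝ) : ℝ :=
  (∑ t, ds U (s t)) / Fintype.card Pt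

end patterns

end Pool.Agent.H28.GN
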