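import Pool.Agent.H28.GN.T2
import Pool.Agent.H83.X.Defs
import Pool.Agent.H28.LF.FIN

/-!
Theorem G: definitions for the front end.  The `n`-side and the `y`-side are those of
`Pool.Agent.H28.LF` (without labels).
-/

set_option autoImplicit false

open MeasureTheory ProbabilityTheory Filter Topology Finset
open scoped Nat ENNReal

namespace Pool.Agent.H28.GN

open Pool.Agent.H24.T2 (Pset)
open Pool.Agent.H28.MCL (ldB Aw)
open Pool.Agent.H67.AG (avgP ul Inv Rt Av)
open Pool.Agent.H28.LF (Wd La Cd dm ds lt ng SS ptS LX Xi LY Yi shX shY lX lY btY flY xiY SysX SysY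
  CompY LwY ExY Wa DcO sY GoodC Um wX Ix)
open Pool.Agent.H83.X (ldI)

/-! ### box averages -/

/-- complex conjugation at the vertices with an odd number of ones -/
noncomputable def cv {J : ℕ} (ω : Fin J → Bool) (z : ℂ) : ℂ :=
  if Even (univ.filter fun j => ω j = true).card then z else (starRingEnd ℂ) z

/-- the position of the vertex `ω` of the box `t`, with step `c` -/
def ps {J : ℕ} (c : ℕ) (t : Fin J → Bool → ℕ) (ω : Fin J → Bool) : ℕ := c * ∑ j, t j (ω j)

/-- the product of the values of `u` at the place `i` of the blocks -/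
noncomputable def st {J : ℕ} (u : Bool × Bool → ℂ) (w : (Fin J → Bool) → ℕ → Bool × Bool)
    (i : ℕ) : ℂ := ∏ ω, cv ω (u (w ω i))

/-- the product over the places `l, ..., l + k - 1` -/
noncomputable def Pr {J : ℕ} (u : Bool × Bool → ℂ) (w : (Fin J → Bool) → ℕ → Bool × Bool)
    (l k : ℕ) : ℂ := ∏ i ∈ range k, st u w (l + i)

/-- the mean of the products which start at the place `l` -/
noncomputable def mm {J : ℕ} (u : Bool × Bool → ℂ) (K : ℕ)
    (w : (Fin J → Bool) → ℕ → Bool × Bool) (l : ℕ) : ℂ :=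
  (∑ k ∈ range K, Pr u w l (k + 1)) / K

/-- the blocks of a word for the box `t` -/
def bl {J : ℕ} (c : ℕ) (t : Fin J → Bool → ℕ) (w : ℕ → Bool × Bool) :
    (Fin J → Bool) → ℕ → Bool × Bool := fun ω i => w (i + ps c t ω)

/-- the boxes with coordinates below `H` -/
def Bx (J H : ℕ) : Finset (Fin J → Bool → ℕ) :=
  Fintype.piFinset fun _ => Fintype.piFinset fun _ => range H

/-- **the local box average**: `J` directions of length `H` with step `c`, one direction of length
`K` with step `1` -/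
noncomputable def DG (u : Bool × Bool → ℂ) (c J H K : ℕ) (w : ℕ → Bool × Bool) : ℝ :=
  (∑ t ∈ Bx J H, ‖mm u K (bl c t w) 0‖ ^ 2) / ((H : ℝ) ^ (2 * J))

/-- the word of a number -/
noncomputable def wN (n : ℕ) (i : ℕ) : Bool × Bool := lt (n + i + 1)

/-- the core of Theorem G -/
def CoreG (u : Bool × Bool → ℂ) (c J : ℕ) : Prop := ∀ ε : ℝ, 0 < ε → ∃ K C : ℕ, 0 < K ∧
  ∀ x y : ℕ, 0 < x → C * x ≤ y →
    ∑ n ∈ Icc x y, DG u c J K K (wN n) / n ≤ ε * Real.log ((y : ℝ) / x)

/-- the box average at a point of the `n`-side, for the dyadic length `2 ^ r` -/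
noncomputable def DX (u : Bool × Bool → ℂ) (c J r : ℕ) (ξ : Xi) : ℝ :=
  DG u c J (2 ^ r) (2 ^ r) (wX ξ)

/-! ### codes -/

/-- good words on the blocks: the means at the places `0` and `L` are compatible, up to `z` -/
def GdG {J : ℕ} (u : Bool × Bool → ℂ) (e z : ℝ) (Q L : ℕ)
    (w : (Fin J → Bool) → ℕ → Bool × Bool) : Prop :=
  e ≤ ‖mm u Q w 0‖ ∧ ‖Pr u w 0 L * mm u Q w L - mm u Q w 0‖ ≤ z

/-- the places of the blocks -/
abbrev Pl (J b : ℕ) : Type := (Fin J → Bool) × Fin b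

/-- the bad words of indices on the blocks -/
def BadG (J : ℕ) (u : Bool × Bool → ℂ) (ix : Bool × Bool → Fin 4) (e z : ℝ) (Q L : ℕ) :
    Set (Pl J (L + Q) → Fin 4) :=
  {v | ¬ ∃ w : (Fin J → Bool) → ℕ → Bool × Bool, (∀ p : Pl J (L + Q), v p = ix (w p.1 p.2)) ∧
    GdG u e z Q L w}

/-- the places in the middle of the blocks -/
def Im (J Q L : ℕ) : Finset (Pl J (L + Q)) :=
  univ.filter fun p => Q ≤ (p.2 : ℕ) ∧ (p.2 : ℕ) < L

/-! ### active boxes -/

/-- the blocks of length `b` are disjoint -/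
def Act (J c b H : ℕ) (t : Fin J → Bool → Fin H) : Prop :=
  ∀ ω ω' : Fin J → Bool, ω ≠ ω' →
    b ≤ dif (ps c (fun j e => (t j e : ℕ)) ω) (ps c (fun j e => (t j e : ℕ)) ω')

instance decAct (J c b H : ℕ) : DecidablePred (Act J c b H) := fun t => by
  unfold Act
  infer_instance

/-- the patterns -/
abbrev PtG (J c b H : ℕ) : Type := {t : Fin J → Bool → Fin H // Act J c b H t}

/-- the coordinates of a pattern -/
def tn {J c b H : ℕ} (t : PtG J c b H) : Fin J → Bool → ℕ := fun j e => (t.1 j e : ℕ)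

theorem ps_le {J c b H : ℕ} (t : PtG J c b H) (ω : Fin J → Bool) : ps c (tn t) ω ≤ c * J * H := by
  unfold ps
  rw [mul_assoc]
  refine Nat.mul_le_mul_left c ?_
  calc ∑ j, tn t j (ω j) ≤ ∑ _j : Fin J, H := Finset.sum_le_sum fun j _ => (t.1 j (ω j)).2.le
    _ = J * H := by rw [Finset.sum_const, Finset.card_univ, Fintype.card_fin, smul_eq_mul]

/-- the positions -/
def po {J c b H : ℕ} (t : PtG J c b H) (p : Pl J b) : Fin (c * J * H + b) :=
  ⟨(p.2 : ℕ) + ps c (tn t) p.1, by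
    have h1 := ps_le t p.1
    have h2 := p.2.2
    omega⟩

/-! ### components -/

/-- the law of the point of the `n`-side on the multiples of `p` -/
noncomputable def nuP (p : ℕ) (ν : Measure Yi) : Measure Xi :=
  (p : ℝ≥0∞) • (ν.restrict (flY p)).map (xiY p)

/-- the square of the modulus of the limit of the means of the box `t` -/
noncomputable def qT {J : ℕ} (u : Bool × Bool → ℂ) (c : ℕ) (t : Fin J → Bool → ℕ)
    (ν : Measure Xi) : ℝ :=
  limUnder atTop (fun K : ℕ => ∫ ξ, ‖mm u K (bl c t (wX ξ)) 0‖ ^ 2 ∂ν)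

open Classical in
/-- the flag of the prime `p` and the box `t` on a component -/
noncomputable def sG {J c b H : ℕ} (u : Bool × Bool → ℂ) (α : ℝ) (F : Set Xi) (ν : Measure Yi)
    (t : PtG J c b H) (p : ℕ) : ℝ :=
  if ν.real (xiY p ⁻¹' F) = 1 ∧ α ≤ qT u c (tn t) (nuP p ν) then 1 else 0

/-- the process -/
def aG (ix : Bool × Bool → Fin 4) (ω : Yi) : Fin 4 := ix (ng (btY ω))

/-- the properties of the invariant set `F` of the `n`-side -/
def FpX (u : Bool × Bool → ℂ) (c J : ℕ) (ε : ℝ) (F : Set Xi) : Prop :=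
  MeasurableSet F ∧ shX ⁻¹' F = F ∧
    ∀ ν : Measure Xi, IsProbabilityMeasure ν → MeasurePreserving shX ν ν → ν.real F = 1 →
      ∀ r : ℕ, ε ≤ ∫ ξ, DX u c J r ξ ∂ν

/-- the properties of the exceptional sets `B r` of the `n`-side, with the levels `k r` -/
def BpX (u : Bool × Bool → ℂ) (c J : ℕ) (k : ℕ → ℕ) (B : ℕ → Set Xi) : Prop :=
  ∀ r, MeasurableSet (B r) ∧ shX ⁻¹' (B r) = B r ∧
    ∀ ν : Measure Xi, IsProbabilityMeasure ν → MeasurePreserving shX ν ν → ν.real (B r) = 0 →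
      ∀ s, k r ≤ s → ∫ ξ, DX u c J (k r) ξ ∂ν - ∫ ξ, DX u c J s ξ ∂ν ≤ 1 / 4 ^ r

end Pool.Agent.H28.GN
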