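import Pool.Agent.H28.GN.T3
import Pool.Agent.H28.GN.T4

/-!
Theorem G: from the targets to the statement.
-/

set_option autoImplicit false

open MeasureTheory ProbabilityTheory Filter Topology Finset
open scoped Nat ENNReal

namespace Pool.Agent.H28.GN

open Pool.Agent.H24.T2 (Pset)
open Pool.Agent.H28.MCL (ldB Aw)
open Pool.Agent.H67.AG (avgP ul Inv Rt Av)
open Pool.Agent.H28.LF (Wd La Cd dm ds lt ng SS ptS LX Xi LY Yi shX shY lX lY btY flY xiY SysX SysY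
  CompY LwY ExY Wa DcO sY GoodC Um wX Ix)

/-- the core of Theorem G from the targets -/
theorem coreG_of (hL : T_GLB) (hX : T_GSX) (hF : T_FST) (hB : T_BST)
    (hE : Pool.Agent.H28.LF.T_YEX) (hW : Pool.Agent.H28.LF.T_YLW) (hR : Pool.Agent.H28.LF.T_YRL)
    (hS : Pool.Agent.H28.LF.T_YST) (hQ : Pool.Agent.H28.LF.T_YSQ) (hM : Pool.Agent.H28.LF.T_YMR)
    (hC : Pool.Agent.H28.LF.T_CMP) (hSel : Pool.Agent.H28.LF.T_SEL) (hG : T_GXY)
    (hX0 : IsEmpty Gx) (u : Bool × Bool → ℂ) (c J : ℕ) (hu : Um u) (hc : 0 < c) (hJ : 0 < J) :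
    CoreG u c J := by
  classical
  by_contra hcon
  obtain ⟨ε, U, x, y, hε, hε1, hA, hbig⟩ := hL u c J hu hcon
  obtain ⟨PX, hPX, hcl, hbigX⟩ := hX u c J ε U x y hu.1 hA hbig
  have hpX := hPX.prob
  obtain ⟨F, hFp, hFm⟩ := hF u c J ε PX hu.1 hε hpX hPX.inv hbigX
  obtain ⟨k, B, hBp, hBm⟩ := hB u c J (ε / 2) PX hu.1 (by positivity) hpX hPX.inv
  obtain ⟨P, hP⟩ := Pool.Agent.H28.LF.syy_of hE hW hR hS hQ hM U x y (fun _ _ => false) PX hA hpX
    hcl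
  have hpP := hP.prob
  obtain ⟨ix, hix⟩ := Pool.Agent.H28.LF.exists_ix u
  obtain ⟨ζ, hζ, hz⟩ := Pool.Agent.H28.LF.exists_zeta u
  obtain ⟨κ, hκ, hdis, hcomp⟩ := hC (fun _ => 1) 0 PX P hPX hP
  obtain ⟨ω, h1, h3⟩ := hSel PX P F B κ (ε / 2) hpX hP hFp.1 hFp.2.1 (by positivity) hFm
    (fun r => (hBp r).1) hBm hdis hcomp {ω | CompY (κ ω)} hcomp
  have h1' : CompY (κ ω) := h1
  have h4 := hG u ix c J (ε / 2) (min ζ 2) (ε / 2) F k B (κ ω) hu hix hc hJ (by positivity)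
    (by linarith) (lt_min hζ (by norm_num)) (min_le_right _ _)
    (fun b b' hb => (min_le_left _ _).trans (hz b b' hb)) (by positivity) (by linarith) h1' hFp
    hBp h3
  exact h4.elim fun d => hX0.false d

end Pool.Agent.H28.GN
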