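import Pool.Agent.H28.GN.Defs

/-!
Theorem G: targets for the ergodic part.  Section 1: patterns; section 2: pairs and the top of the
tower; section 3: the switching lemma; section 4: the descent.
-/

set_option autoImplicit false

open MeasureTheory ProbabilityTheory Filter Topology Finset
open scoped Nat ENNReal

namespace Pool.Agent.H28.GN

open Pool.Agent.H24.T2 (Pset)
open Pool.Agent.H67.AG (avgP ul Inv Rt Av SA kap JJ TT InvZ nxt triv tow XN PN TN XX PX TX prX Fac)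
open Pool.Agent.H28.LF (Wd La Cd dm ds)
open Pool.Agent.H83.V (kp)

/-! ### Section 1: patterns -/

/-- LGB: basic facts on `LaG` (from `T_LAB`, `T_LAF` for each pattern). -/
def T_LGB : Prop := (∀ (Ω : Type) [MeasurableSpace Ω] (P : Measure Ω) [IsProbabilityMeasure P]
  (T : Ω ≃ᵐ Ω) (U : Ultrafilter ℕ) (q R : ℕ) (Pt : Type) [Fintype Pt] [Nonempty Pt]
  (s : Pt → ℕ → ℝ) (Bad : Pt → ℕ → Set (Fin R → Fin q)) (a : Ω → Fin q) (A : Set Ω),
  MeasurePreserving T P P → (U : Filter ℕ) ≤ atTop → (∀ t p, s t p = 0 ∨ s t p = 1) →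
  Measurable a → MeasurableSet[Inv T 1] A →
  0 ≤ LaG U s P T a Bad A ∧ LaG U s P T a Bad A ≤ 1 ∧
  (∀ B, MeasurableSet[Inv T 1] B → Disjoint A B →
    LaG U s P T a Bad (A ∪ B) = LaG U s P T a Bad A + LaG U s P T a Bad B)) ∧
  ∀ (Ω Ω' : Type) [MeasurableSpace Ω] [MeasurableSpace Ω'] (P : Measure Ω)
  [IsProbabilityMeasure P] (P' : Measure Ω') [IsProbabilityMeasure P'] (T : Ω ≃ᵐ Ω)
  (T' : Ω' ≃ᵐ Ω') (g : Ω → Ω') (U : Ultrafilter ℕ) (q R : ℕ) (Pt : Type) [Fintype Pt]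
  (s : Pt → ℕ → ℝ) (Bad : Pt → ℕ → Set (Fin R → Fin q)) (a : Ω' → Fin q),
  Fac P T P' T' g → Measurable a →
  LaG U s P T (fun ω => a (g ω)) Bad Set.univ = LaG U s P' T' a Bad Set.univ

/-- PRI: the inequality for a pair of processes (as `Pool.Agent.H83.V.T_PIRV`, for each
pattern). -/
def T_PRI : Prop := ∀ (Ω : Type) [MeasurableSpace Ω] (P : Measure Ω) [IsProbabilityMeasure P]
  (T : Ω ≃ᵐ Ω) (U : Ultrafilter ℕ) (q R : ℕ) (Pt ι : Type) [Fintype Pt] [Nonempty Pt]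
  [Fintype ι] [DecidableEq ι] (s : Pt → ℕ → ℝ) (pos : Pt → ι → Fin R) (I : Finset ι)
  (B : Pt → ℕ → Set (ι → Fin q)) (a a' : Ω → Fin q) (A : Set Ω),
  MeasurePreserving T P P → (U : Filter ℕ) ≤ atTop → (∀ t p, s t p = 0 ∨ s t p = 1) →
  (∀ t, Function.Injective (pos t)) → (∀ t p, CodeG I (B t p)) → Measurable a → Measurable a' →
  MeasurableSet[Inv T 1] A →
  dsG U s * (I.card : ℝ) * ∫ ω in A, dm a a' ω ∂P ≤
    LaG U s P T a (fun t p => Lft (pos t) (B t p)) A +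
      LaG U s P T a' (fun t p => Lft (pos t) (B t p)) A + Sp U pos I P T (dm a a') A

/-- PGP: the inequality for rare mismatches (as `Pool.Agent.H83.V.T_PGV`, from `T_PRI`). -/
def T_PGP : Prop := ∀ (U : Ultrafilter ℕ) (q R : ℕ) (Pt ι : Type) [Fintype Pt] [Nonempty Pt]
  [Fintype ι] [DecidableEq ι] (s : Pt → ℕ → ℝ) (pos : Pt → ι → Fin R) (I : Finset ι)
  (B : Pt → ℕ → Set (ι → Fin q)) (γ κ : ℝ), (U : Filter ℕ) ≤ atTop →
  (∀ t p, s t p = 0 ∨ s t p = 1) → (∀ t, Function.Injective (pos t)) →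
  (∀ t p, CodeG I (B t p)) → Fintype.card ι ≤ 2 * I.card → 0 < γ → γ ≤ dsG U s → 0 < κ →
  Spr U pos I γ κ → PgG U s (fun t p => Lft (pos t) (B t p)) (Fintype.card ι) γ κ

/-- LPP: each word of letters has `card ι` letters. -/
def T_LPP : Prop := ∀ (U : Ultrafilter ℕ) (q R : ℕ) (Pt ι : Type) [Fintype Pt] [Nonempty Pt]
  [Fintype ι] (s : Pt → ℕ → ℝ) (pos : Pt → ι → Fin R) (B : Pt → ℕ → Set (ι → Fin q)),
  (U : Filter ℕ) ≤ atTop → (∀ t p, s t p = 0 ∨ s t p = 1) →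
  LipG U s (fun t p => Lft (pos t) (B t p)) (Fintype.card ι)

open Classical in
/-- P3G: the bad words for the conditional probabilities over the tower (as
`Pool.Agent.H83.V.T_P3V`; from `Pool.Agent.H24.UG.T_UP3` with `W = 2`). -/
def T_P3G : Prop := ∀ (X : Type) [MeasurableSpace X] [StandardBorelSpace X] (μ : Measure X)
  [IsProbabilityMeasure μ] (T : X ≃ᵐ X) (q R J : ℕ) (a : X → Fin q) (U : Ultrafilter ℕ)
  (s : ℕ → ℝ) (Bad : ℕ → Set (Fin R → Fin q)), Ergodic T μ → Measurable a →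
  (U : Filter ℕ) ≤ atTop → (∀ p, s p = 0 ∨ s p = 1) → R ≤ J + 1 →
  La U s μ T a Bad Set.univ =
    ul U fun m => avgP 2 m fun p => s p * ∑ v : Fin R → Fin q,
      if v ∈ Bad p then ∫ x, ∏ i, wtG μ a (tow μ T J) (v i) (T^[p * ((i : ℕ) + 1)] x) ∂μ else 0

/-- CPG: a coupling of a product measure with itself (as `Pool.Agent.H83.V.T_CPV`). -/
def T_CPG : Prop := ∀ (q : ℕ) (ι : Type) [Fintype ι] [DecidableEq ι] (I : Finset ι)
  (w : ι → Fin q → ℝ) (th : ℝ) (B : Set (ι → Fin q)) [DecidablePred (· ∈ B)], CodeG I B →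
  0 ≤ th → th ≤ 1 → (∀ i b, 0 ≤ w i b) → (∀ i, ∑ b, w i b = 1) →
  ∑ i ∈ I, th * (1 - ∑ b, w i b ^ 2) -
    ∑ i ∈ I, ∑ j ∈ univ.erase i,
      (th * (1 - ∑ b, w i b ^ 2)) * (th * (1 - ∑ b, w j b ^ 2)) ≤
  2 * ∑ v : ι → Fin q, if v ∈ B then ∏ i, w i (v i) else 0

open Classical in
/-- MRG: marginals of a product measure. -/
def T_MRG : Prop := ∀ (q R : ℕ) (ι : Type) [Fintype ι] [DecidableEq ι] (pos : ι → Fin R)
  (w : Fin R → Fin q → ℝ) (B : Set (ι → Fin q)), Function.Injective pos →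
  (∀ i, ∑ b, w i b = 1) →
  (∑ v : Fin R → Fin q, if v ∈ Lft pos B then ∏ i, w i (v i) else 0) =
    ∑ v : ι → Fin q, if v ∈ B then ∏ i, w (pos i) (v i) else 0

/-- RSP: the inequality for partially resampled words (as `Pool.Agent.H83.V.T_RSV`; from
`T_P3G`, `T_CPG`, `T_MRG`). -/
def T_RSP : Prop := ∀ (X : Type) [MeasurableSpace X] [StandardBorelSpace X] (μ : Measure X)
  [IsProbabilityMeasure μ] (T : X ≃ᵐ X) (q R J : ℕ) (a : X → Fin q) (U : Ultrafilter ℕ)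
  (Pt ι : Type) [Fintype Pt] [Nonempty Pt] [Fintype ι] [DecidableEq ι] (s : Pt → ℕ → ℝ)
  (pos : Pt → ι → Fin R) (I : Finset ι) (B : Pt → ℕ → Set (ι → Fin q)) (th : ℝ),
  Ergodic T μ → Measurable a → (U : Filter ℕ) ≤ atTop → (∀ t p, s t p = 0 ∨ s t p = 1) →
  (∀ t, Function.Injective (pos t)) → (∀ t p, CodeG I (B t p)) → R ≤ J + 1 → 0 ≤ th →
  th ≤ 1 →
  dsG U s * (I.card : ℝ) * ∫ x, th * vvG μ a (tow μ T J) x ∂μ ≤
    2 * LaG U s μ T a (fun t p => Lft (pos t) (B t p)) Set.univ +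
      Sp U pos I μ T (fun x => th * vvG μ a (tow μ T J) x) Set.univ

/-- TPP: the inequality for the partially resampled process (from `T_RSP`). -/
def T_TPP : Prop := ∀ (X : Type) [MeasurableSpace X] [StandardBorelSpace X] (μ : Measure X)
  [IsProbabilityMeasure μ] (T : X ≃ᵐ X) (q R : ℕ) (a : X → Fin q) (U : Ultrafilter ℕ)
  (Pt ι : Type) [Fintype Pt] [Nonempty Pt] [Fintype ι] [DecidableEq ι] (s : Pt → ℕ → ℝ)
  (pos : Pt → ι → Fin R) (I : Finset ι) (B : Pt → ℕ → Set (ι → Fin q)) (γ κ : ℝ),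
  Ergodic T μ → Measurable a → (U : Filter ℕ) ≤ atTop → (∀ t p, s t p = 0 ∨ s t p = 1) →
  (∀ t, Function.Injective (pos t)) → (∀ t p, CodeG I (B t p)) →
  Fintype.card ι ≤ 2 * I.card → 0 < γ → γ ≤ dsG U s → 0 < κ → Spr U pos I γ κ →
  TpG U s (fun t p => Lft (pos t) (B t p)) (Fintype.card ι) γ κ μ T a

/-- SM1: the sum of the correlations up to `R` (from `T_STX` with `A = 3 R`). -/
def T_SM1 : Prop := ∀ (Ω : Type) [MeasurableSpace Ω] (P : Measure Ω) [IsProbabilityMeasure P]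
  (T : Ω ≃ᵐ Ω) (U : Ultrafilter ℕ) (f : Ω → ℝ) (R : ℕ) (u : ℝ), MeasurePreserving T P P →
  (U : Filter ℕ) ≤ atTop → Measurable f → (∀ ω, 0 ≤ f ω ∧ f ω ≤ 1) → 0 < R → 0 ≤ u →
  (∀ᵐ ω ∂P, (P[f | Inv T 1]) ω ≤ 2 * u) →
  ∑ d ∈ Icc 1 R, Cd U P T f Set.univ d ≤ (14 * R * u + 1) * ∫ ω, f ω ∂P

/-! ### Section 2: pairs and the top of the tower -/

/-- MBG: basic facts on the frequency of the mismatches (as `Pool.Agent.H83.V.T_MB`, from
`T_BK`). -/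
def T_MBG : Prop := ∀ c : Gx, Measurable c.M ∧ (∀ p, c.M (TT c.T p) = c.M p) ∧
  (∀ x y z, 0 ≤ c.M (x, y) ∧ c.M (x, y) ≤ 1 ∧ c.M (x, x) = 0 ∧ c.M (x, y) = c.M (y, x) ∧
    c.M (x, z) ≤ c.M (x, y) + c.M (y, z)) ∧
  MeasurableSet[Inv (TT c.T) 1] c.Ec ∧
  ∀ (Ω : Type) [MeasurableSpace Ω] (P : Measure Ω) [IsProbabilityMeasure P] (T : Ω ≃ᵐ Ω)
    (g g' : Ω → c.X), MeasurePreserving T P P → Fac P T c.μ c.T g → Fac P T c.μ c.T g' →
    P[dm (fun ω => c.a (g ω)) (fun ω => c.a (g' ω)) | Inv T 1] =ᵐ[P] fun ω => c.M (g ω, g' ω)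

/-- NMG: the constants. -/
def T_NMG : Prop := ∀ c : Gx, 0 < c.ulo ∧ 1000 * c.ulo < c.uh ∧ c.uh ≤ 1 / 1000 ∧
  c.ulo ≤ 1 / 1000000

/-- GPG: the frequency of the mismatches of two points is not in the gap (as
`Pool.Agent.H83.V.T_GAP`; uses `c.pg`). -/
def T_GPG : Prop := ∀ (c : Gx) (Ω : Type) [MeasurableSpace Ω] (P : Measure Ω)
  [IsProbabilityMeasure P] (T : Ω ≃ᵐ Ω) (g g' : Ω → c.X), MeasurePreserving T P P →
  Fac P T c.μ c.T g → Fac P T c.μ c.T g' →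
  ∀ᵐ ω ∂P, ¬ (c.ulo < c.M (g ω, g' ω) ∧ c.M (g ω, g' ω) ≤ c.uh)

/-- JVG: the conditional probability of a mismatch and the self-joining (as
`Pool.Agent.H83.V.T_JVV`). -/
def T_JVG : Prop := ∀ (c : Gx) (Z : SA c.X),
  ∫ x, vvG c.μ c.a Z x ∂c.μ = (JJ c.μ Z).real {p | c.a p.1 ≠ c.a p.2}

/-- TPG: the top of the tower (as `Pool.Agent.H83.V.T_TOPV`; uses `c.tp`). -/
def T_TPG : Prop := ∀ c : Gx, c.CP (tow c.μ c.T c.R)

end Pool.Agent.H28.GN
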