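import Pool.Agent.H28.GN.T1

/-!
Theorem G: targets for the ergodic part.  Section 3: the switching lemma; section 4: the descent
(as the rows Y and W of Theorem V).
-/

set_option autoImplicit false

open MeasureTheory ProbabilityTheory Filter Topology Finset
open scoped Nat ENNReal

namespace Pool.Agent.H28.GN

open Pool.Agent.H24.T2 (Pset)
open Pool.Agent.H67.AG (avgP ul Inv Rt Av SA kap JJ TT InvZ nxt triv tow XN PN TN XX PX TX prX Fac)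
open Pool.Agent.H28.LF (Wd La Cd dm ds)

/-! ### Section 3: the switching lemma -/

/-- G1: the bad words are asymptotically invariant in mean square (as `T_Y1`). -/
def T_G1 : Prop := ∀ (d : Sg) (ε : ℝ) (L₀ : ℕ), 0 < ε → ∃ L : ℕ, L₀ ≤ L ∧ 0 < L ∧
  ∀ L'' : ℕ, L ≤ L'' → ∀ (t : d.Pt) (j : Fin d.R → Fin d.n),
    ul d.U (fun m => avgP 2 m fun p => d.s t p *
      ∫ ω, (Av d.T' 1 L (d.FF t p j) ω - Av d.T' 1 L'' (d.FF t p j) ω) ^ 2 ∂d.P') ≤ ε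

/-- G2: the frequency of the bad words for the shifted selection (as `T_Y2`). -/
def T_G2 : Prop := ∀ (d : Sg) (e : SgE d) (L k : ℕ) (A : Set e.Ω), 0 < L →
  MeasurableSet[Inv e.T 1] A →
  LaG d.U d.s e.P e.T (e.yt k) d.Bad A ≤ LaG d.U d.s e.P e.T e.ys d.Bad A +
    2 * (d.R : ℝ) / (L : ℝ) * ∑ l ∈ range L, ∫ ω in A, e.mv l ω ∂e.P +
    (∑ t, e.E2 t L A) / Fintype.card d.Pt

/-- G3: the crossing inequality (as `T_Y3`; from `d.pg` and `T_G2`). -/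
def T_G3 : Prop := ∀ (d : Sg) (e : SgE d) (L k : ℕ) (B : Set e.Ω), 0 < L →
  MeasurableSet[Inv e.T 1] B →
  (∀ᵐ ω ∂e.P, ω ∈ B → d.ps < (e.P[dm e.ys (e.yt k) | Inv e.T 1]) ω ∧
    (e.P[dm e.ys (e.yt k) | Inv e.T 1]) ω ≤ 11 / 10 * d.ps) →
  7 / 32 * d.γ * d.κ * e.P.real B ≤ e.EE L B

/-- G4: the bound is additive, the steps are small (as `T_Y4`). -/
def T_G4 : Prop := ∀ (d : Sg) (e : SgE d) (L : ℕ), 0 < L →
  (∀ B, MeasurableSet[Inv e.T 1] B → 0 ≤ e.EE L B) ∧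
  (∀ B B', MeasurableSet[Inv e.T 1] B → MeasurableSet[Inv e.T 1] B' → Disjoint B B' →
    e.EE L (B ∪ B') = e.EE L B + e.EE L B') ∧
  (∀ᵐ ω ∂e.P, (e.P[dm e.ys (e.yt 0) | Inv e.T 1]) ω = 0) ∧
  ∀ k, ∀ᵐ ω ∂e.P, |(e.P[dm e.ys (e.yt (k + 1)) | Inv e.T 1]) ω -
    (e.P[dm e.ys (e.yt k) | Inv e.T 1]) ω| ≤ (e.P[e.mv 1 | Inv e.T 1]) ω

/-- G5: average over the shift (as `T_Y5`). -/
def T_G5 : Prop := ∀ (d : Sg) (e : SgE d), ∀ᵐ ω ∂e.P,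
  (∀ k, (e.P[dm e.ys (e.yt k) | Inv e.T 1]) ω ≤ d.ps) →
    ∃ b, (e.P[dm e.ys (e.yb b) | Inv e.T 1]) ω ≤ d.ps

/-- G6: the parameters (as `T_Y6`). `η` does not depend on the reference system `d`. -/
def T_G6 : Prop := ∀ (m R : ℕ) (γ κ ε : ℝ), 0 < m → 0 < γ → 0 < κ → 0 < ε →
  ∃ η : ℝ, 0 < η ∧ ∀ d : Sg, d.m = m → d.R = R → d.γ = γ → d.κ = κ →
    ∃ L L₁ : ℕ, 0 < L ∧ ∀ e : SgE d,
      (∀ l ≤ L₁, e.P.real {ω | e.s (e.T^[l] ω) ≠ e.s ω} ≤ η) →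
      e.EE L Set.univ ≤ 2 * LaG d.U d.s e.P e.T e.ys d.Bad Set.univ + ε ∧
      e.P.real {ω | d.ps / 10 < (e.P[e.mv 1 | Inv e.T 1]) ω} ≤ ε

/-- GSW: the switching lemma (as `T_YSW`). `η` does not depend on the reference system `d`. -/
def T_GSW : Prop := ∀ (m R : ℕ) (γ κ ε : ℝ), 0 < m → 0 < γ → 0 < κ → 0 < ε →
  ∃ η : ℝ, 0 < η ∧ ∀ d : Sg, d.m = m → d.R = R → d.γ = γ → d.κ = κ →
    ∃ L₁ : ℕ, ∀ e : SgE d,
      (∀ l ≤ L₁, e.P.real {ω | e.s (e.T^[l] ω) ≠ e.s ω} ≤ η) →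
      e.P.real {ω | ∀ b, d.ps < (e.P[dm e.ys (e.yb b) | Inv e.T 1]) ω} ≤
        10 / (d.γ * d.κ) * LaG d.U d.s e.P e.T e.ys d.Bad Set.univ + ε

/-! ### Section 4: the descent -/

/-- H1: the mass of the close points is constant (as `T_W1`). -/
def T_H1 : Prop := ∀ (c : Gx) (Z : SA c.X), InvZ c.T Z → c.CP Z →
  ∃ c₀ : ℝ, 0 < c₀ ∧ c₀ ≤ 1 ∧ ∀ᵐ x ∂c.μ, c₀ ≤ (kap c.μ Z x).real {x' | (x', x) ∈ c.Ec}

/-- H2: in long windows the average of the mismatches is close to the frequency (as `T_W2`). -/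
def T_H2 : Prop := ∀ (c : Gx) (Z : SA c.X) (θ : ℝ), InvZ c.T Z → 0 < θ →
  ∃ Λ₀ : ℕ, ∀ Λ, Λ₀ ≤ Λ → ∀ l : ℕ,
    (JJ c.μ Z).real {p | c.ulo < |c.wa l Λ p - c.M p|} ≤ θ

/-- H3: choice of the law of the nearby points (as `T_W3`). -/
def T_H3 : Prop := ∀ (c : Gx) (Z : SA c.X) (Λ : ℕ) (θ : ℝ), InvZ c.T Z → 0 < θ →
  ∃ R : Measure (c.X × c.X), IsProbabilityMeasure R ∧ MeasurePreserving (TT c.T) R R ∧
    R ≪ JJ c.μ Z ∧ MeasurePreserving Prod.fst R c.μ ∧ MeasurePreserving Prod.snd R c.μ ∧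
    ∫ q, ∑ v, |(kap c.μ (nxt c.μ c.T Z) q.1).real (c.wd Λ ⁻¹' {v}) -
      (kap c.μ (nxt c.μ c.T Z) q.2).real (c.wd Λ ⁻¹' {v})| ∂(R) ≤ θ

/-- H4: a reference close to the last point is found (as `T_W4`; from `T_RPC`, `T_NCO`,
`T_PXL`). -/
def T_H4 : Prop := ∀ (c : Gx) (Z : SA c.X) (c₀ : ℝ) (Λ n : ℕ)
  (R : Measure (c.X × c.X)) [IsProbabilityMeasure R] (θ θ' : ℝ), InvZ c.T Z → 0 < Λ →
  0 < c₀ → c₀ ≤ 1 → (∀ᵐ x ∂c.μ, c₀ ≤ (kap c.μ Z x).real {x' | (x', x) ∈ c.Ec}) →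
  MeasurePreserving Prod.fst R c.μ → MeasurePreserving Prod.snd R c.μ →
  ∫ q, ∑ v, |(kap c.μ Z q.1).real (c.wd Λ ⁻¹' {v}) -
    (kap c.μ Z q.2).real (c.wd Λ ⁻¹' {v})| ∂(R) ≤ θ →
  (JJ c.μ Z).real {p | c.ulo < |c.wa 0 Λ p - c.M p|} ≤ θ' →
  (PX c.μ Z (n + 1) R).real (c.NF Λ n) ≤ (1 - c₀) ^ (n + 1) + ((n : ℝ) + 1) * θ' + θ

/-- H5: the averages of the mismatches of the pairs of references are good, with high
probability (as `T_W5`). -/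
def T_H5 : Prop := ∀ (c : Gx) (Z : SA c.X) (Λ l n : ℕ) (R : Measure (c.X × c.X))
  [IsProbabilityMeasure R] (θ : ℝ), InvZ c.T Z →
  MeasurePreserving Prod.fst R c.μ → MeasurePreserving Prod.snd R c.μ →
  (JJ c.μ Z).real {p | c.ulo < |c.wa 0 Λ p - c.M p|} ≤ θ →
  (JJ c.μ Z).real {p | c.ulo < |c.wa l (Λ - l) p - c.M p|} ≤ θ →
  (JJ c.μ Z).real {p | c.ulo < |c.wa l Λ p - c.M p|} ≤ θ →
  (PX c.μ Z (n + 1) R).real (c.FE Λ l n) ≤ 3 * ((n : ℝ) + 1) ^ 2 * θ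

/-- H6: the selection changes slowly (as `T_W6`). -/
def T_H6 : Prop := ∀ (c : Gx) (Λ l n : ℕ) (P : Measure (XX c.X (n + 1)))
  [IsProbabilityMeasure P], MeasurePreserving (TX c.T (n + 1)) P P → 0 < Λ → 2 * l ≤ Λ →
  Measurable (c.sel Λ n) ∧
  P.real {p | c.sel Λ n ((TX c.T (n + 1))^[l] p) ≠ c.sel Λ n p} ≤
    2 * P.real (c.NF Λ n) + P.real (c.FE Λ l n)

/-- H7: the selected reference has mostly the symbol of the last point (as `T_W7`). -/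
def T_H7 : Prop := ∀ (c : Gx) (Λ n : ℕ) (P : Measure (XX c.X (n + 1)))
  [IsProbabilityMeasure P] (ζ : ℝ), MeasurePreserving (TX c.T (n + 1)) P P → 0 < Λ →
  (∀ l, 2 * l ≤ Λ →
    P.real {p | c.sel Λ n ((TX c.T (n + 1))^[l] p) ≠ c.sel Λ n p} ≤ ζ) →
  P.real (c.NF Λ n) ≤ ζ → P.real (c.FE Λ 0 n) ≤ ζ →
  P.real {p | c.a (p.2.1 (c.sel Λ n p)) ≠ c.a p.2.2} ≤ 8 * c.ulo + 5 * ζ

/-- H8: the switching lemma for the references (as `T_W8`; from `T_GSW`; the reference system is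
`XN c.X (n + 1)`, `PN`, `TN`, with `y b = a (x_b)`). `η` does not depend on `Z` and `n`. -/
def T_H8 : Prop := ∀ (c : Gx) (ε : ℝ), 0 < ε →
  ∃ η : ℝ, 0 < η ∧ ∀ (Z : SA c.X) (n : ℕ), InvZ c.T Z → ∃ L₁ : ℕ,
    ∀ (Λ : ℕ) (R : Measure (c.X × c.X)) [IsProbabilityMeasure R],
      MeasurePreserving Prod.fst R c.μ → MeasurePreserving Prod.snd R c.μ →
      MeasurePreserving (TT c.T) R R →
      (∀ l ≤ L₁, (PX c.μ Z (n + 1) R).real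
        {p | c.sel Λ n ((TX c.T (n + 1))^[l] p) ≠ c.sel Λ n p} ≤ η) →
      (PX c.μ Z (n + 1) R).real {p | ∀ b : Fin (n + 1), c.κ / (2 * c.m) <
        ((PX c.μ Z (n + 1) R)[dm (fun p : XX c.X (n + 1) => c.a (p.2.1 (c.sel Λ n p)))
          (fun p => c.a (p.2.1 b)) | Inv (TX c.T (n + 1)) 1]) p} ≤
        10 / (c.γ * c.κ) * LaG c.U c.s (PX c.μ Z (n + 1) R) (TX c.T (n + 1))
          (fun p => c.a (p.2.1 (c.sel Λ n p))) c.Bad Set.univ + ε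

/-- H9: the last step of the descent (as `T_W9`). -/
def T_H9 : Prop := ∀ (c : Gx) (Z : SA c.X) (n Λ : ℕ) (R : Measure (c.X × c.X))
  [IsProbabilityMeasure R], InvZ c.T Z → InvZ c.T (nxt c.μ c.T Z) → 0 < Λ →
  MeasurePreserving (TT c.T) R R → R ≪ JJ c.μ Z → MeasurePreserving Prod.fst R c.μ →
  MeasurePreserving Prod.snd R c.μ →
  (PX c.μ (nxt c.μ c.T Z) (n + 1) R).real
    {p | c.a (p.2.1 (c.sel Λ n p)) ≠ c.a p.2.2} ≤ 10 * c.ulo →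
  (PX c.μ (nxt c.μ c.T Z) (n + 1) R).real {p | ∀ b : Fin (n + 1), c.κ / (2 * c.m) <
    ((PX c.μ (nxt c.μ c.T Z) (n + 1) R)[dm
      (fun p : XX c.X (n + 1) => c.a (p.2.1 (c.sel Λ n p)))
      (fun p => c.a (p.2.1 b)) | Inv (TX c.T (n + 1)) 1]) p} ≤ 1 / 2 →
  c.CP Z

/-- DSG: the descent (as `T_DSV`; uses `c.lip`, `c.rel`). -/
def T_DSG : Prop := ∀ (c : Gx) (Z : SA c.X), InvZ c.T Z → c.CP (nxt c.μ c.T Z) → c.CP Z

/-- ENG: the last step (as `T_ENV`). -/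
def T_ENG : Prop := ∀ c : Gx, ¬ c.CP (triv c.X)

/-- there are no data -/
theorem erg_of (h1 : T_TPG) (h2 : T_DSG) (h3 : T_ENG) (hT : Pool.Agent.H67.AG.T_TW) :
    IsEmpty Gx := by
  refine ⟨fun c => ?_⟩
  have key : ∀ j : ℕ, j ≤ c.R → c.CP (tow c.μ c.T (c.R - j)) := by
    intro j
    induction j with
    | zero => intro _; exact h1 c
    | succ j ih =>
      intro hj
      have h := ih (by omega)
      have e : c.R - j = (c.R - (j + 1)) + 1 := by omega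
      rw [e, Pool.Agent.H67.AG.tow_succ] at h
      exact h2 c _ (hT c.X c.μ c.T c.erg _) h
  have h0 := key c.R le_rfl
  rw [Nat.sub_self, Pool.Agent.H67.AG.tow_zero] at h0
  exact h3 c h0

end Pool.Agent.H28.GN
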